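import Pool.Agent.helper12.GS.Pm

/-!
Generated: constants of the corner programs of the table Q122a.
-/

namespace Pool.Agent.helper12.K122

open Pool.Agent.helper31.IA (Z)
open Pool.Agent.helper12.GS

def p0 : Pm where
  ec := ⟨8170504192, 0, 0, 0⟩
  bc := ⟨0, 0, 0, 0⟩
  nn := ⟨1099511627776, 0, 0, 0⟩
  tj := ⟨4398046511104, 0, 0, 0⟩
  ca := ⟨1099511627776, 0, 0, 0⟩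
  cb := ⟨879662989312, 0, 0, 0⟩
  cc := ⟨0, 0, 0, 0⟩
  ax := ⟨0, 0, 0, 0⟩
  ay := ⟨0, 0, 0, 0⟩
  xa := ⟨0, 0, 0, 0⟩
  C2 := ⟨0, 0, 0, 0⟩
  wr := ⟨0, 673772994560, 0, 0⟩
  wi := ⟨5872294035456, 0, 0, 0⟩
  w1 := ⟨0, 45337674776576, 0, 0⟩
  h000 := ⟨0, 1126829760, 0, 0⟩
  h001 := ⟨0, 1879272768, 0, 0⟩
  h002 := ⟨5621966656, 0, 0, 0⟩
  h003 := ⟨0, 10798009408, 0, 0⟩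
  h010 := ⟨0, 923558125696, 0, 0⟩
  h011 := ⟨0, 244549059264, 0, 0⟩
  h012 := ⟨0, 0, 0, 0⟩
  h020 := ⟨89785840318144, 0, 0, 0⟩
  h021 := ⟨0, 0, 0, 0⟩
  h030 := ⟨0, 0, 0, 0⟩
  h100 := ⟨0, 150990784, 0, 0⟩
  h101 := ⟨0, 223232320, 0, 0⟩
  h102 := ⟨603643904, 0, 0, 0⟩
  h110 := ⟨0, 138439025088, 0, 0⟩
  h111 := ⟨0, 377768951552, 0, 0⟩
  h120 := ⟨0, 0, 0, 0⟩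
  h200 := ⟨0, 201227072, 0, 0⟩
  h201 := ⟨0, 52334976, 0, 0⟩
  h202 := ⟨335569600, 0, 0, 0⟩
  h210 := ⟨30412805632, 0, 0, 0⟩
  h211 := ⟨0, 0, 0, 0⟩
  h300 := ⟨44426752, 0, 0, 0⟩
  h301 := ⟨6125568, 0, 0, 0⟩
  h310 := ⟨0, 8518710464, 0, 0⟩
  h400 := ⟨0, 922240, 0, 0⟩
  h401 := ⟨0, 2418560, 0, 0⟩
  h410 := ⟨0, 0, 0, 0⟩
  h500 := ⟨0, 526656, 0, 0⟩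
  h501 := ⟨0, 0, 0, 0⟩
  h600 := ⟨171648, 0, 0, 0⟩
  h700 := ⟨0, 0, 0, 0⟩
  h800 := ⟨0, 0, 0, 0⟩
  m000 := ⟨1097179070464, 0, 0, 0⟩
  m001 := ⟨0, 660733952, 0, 0⟩
  m002 := ⟨3797286912, 0, 0, 0⟩
  m010 := ⟨500965769216, 0, 0, 0⟩
  m100 := ⟨5249368064, 0, 0, 0⟩
  m101 := ⟨10682368, 0, 0, 0⟩
  m110 := ⟨481883652096, 0, 0, 0⟩
  m200 := ⟨0, 281018368, 0, 0⟩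
  m300 := ⟨39976960, 0, 0, 0⟩
  a00 := ⟨126240227328, 0, 0, 0⟩
  a01 := ⟨210274877440, 0, 0, 0⟩
  a02 := ⟨0, 201237790720, 0, 0⟩
  a03 := ⟨0, 1710144356352, 0, 0⟩
  a10 := ⟨8018410668032, 0, 0, 0⟩
  a11 := ⟨27491355656192, 0, 0, 0⟩
  b00 := ⟨103466663936, 0, 0, 0⟩
  b01 := ⟨158041112576, 0, 0, 0⟩
  b02 := ⟨0, 238467416064, 0, 0⟩
  b03 := ⟨0, 1125802311680, 0, 0⟩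
  b10 := ⟨5349608456192, 0, 0, 0⟩
  b11 := ⟨22571592581120, 0, 0, 0⟩
  t00 := ⟨1450159243264, 0, 0, 0⟩
  t01 := ⟨152146280448, 0, 0, 0⟩
  t02 := ⟨0, 4773874565120, 0, 0⟩
  t03 := ⟨0, 5405460922368, 0, 0⟩
  t10 := ⟨112661071790080, 0, 0, 0⟩
  t11 := ⟨51359517048832, 0, 0, 0⟩
  s00 := ⟨1797743247360, 0, 0, 0⟩
  s01 := ⟨1297084121088, 0, 0, 0⟩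
  s02 := ⟨0, 6286906490880, 0, 0⟩
  s03 := ⟨10249829679104, 0, 0, 0⟩
  s10 := ⟨21840670228480, 0, 0, 0⟩
  s11 := ⟨11894331408384, 0, 0, 0⟩
  g00 := ⟨34092929024, 0, 0, 0⟩
  g01 := ⟨0, 10677043456, 0, 0⟩
  g10 := ⟨6265420652160, 0, 0, 0⟩
  g11 := ⟨0, 0, 0, 0⟩
  f00 := ⟨8767094144, 0, 0, 0⟩
  f01 := ⟨133594236800, 0, 0, 0⟩
  f10 := ⟨22450407905792, 0, 0, 0⟩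
  f11 := ⟨0, 0, 0, 0⟩
  l000 := ⟨0, 0, 0, 0⟩
  l001 := ⟨0, 0, 0, 0⟩
  l002 := ⟨0, 0, 0, 0⟩
  l010 := ⟨0, 0, 0, 0⟩
  l011 := ⟨0, 0, 0, 0⟩
  l020 := ⟨0, 0, 0, 0⟩
  l100 := ⟨0, 0, 0, 0⟩
  l101 := ⟨0, 0, 0, 0⟩
  l102 := ⟨0, 0, 0, 0⟩
  l110 := ⟨0, 0, 0, 0⟩
  l111 := ⟨0, 0, 0, 0⟩
  l120 := ⟨0, 0, 0, 0⟩
  l200 := ⟨0, 0, 0, 0⟩
  l201 := ⟨0, 0, 0, 0⟩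
  l210 := ⟨0, 0, 0, 0⟩
  l300 := ⟨0, 0, 0, 0⟩
  l301 := ⟨0, 0, 0, 0⟩
  l310 := ⟨0, 0, 0, 0⟩
  l400 := ⟨0, 0, 0, 0⟩
  l401 := ⟨0, 0, 0, 0⟩
  l410 := ⟨0, 0, 0, 0⟩
  l500 := ⟨0, 0, 0, 0⟩
  l501 := ⟨0, 0, 0, 0⟩
  l510 := ⟨0, 0, 0, 0⟩
  l600 := ⟨0, 0, 0, 0⟩
  l700 := ⟨0, 0, 0, 0⟩
  l800 := ⟨0, 0, 0, 0⟩
  l900 := ⟨0, 0, 0, 0⟩
  l1000 := ⟨0, 0, 0, 0⟩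
  l1100 := ⟨0, 0, 0, 0⟩
  q00 := ⟨0, 0, 0, 0⟩
  q01 := ⟨0, 0, 0, 0⟩
  q02 := ⟨0, 0, 0, 0⟩
  q03 := ⟨0, 0, 0, 0⟩
  q10 := ⟨0, 0, 0, 0⟩
  q11 := ⟨0, 0, 0, 0⟩
  q12 := ⟨0, 0, 0, 0⟩
  q20 := ⟨0, 0, 0, 0⟩
  q21 := ⟨0, 0, 0, 0⟩
  q30 := ⟨0, 0, 0, 0⟩
  n000 := ⟨0, 0, 0, 0⟩
  n001 := ⟨0, 0, 0, 0⟩
  n002 := ⟨0, 0, 0, 0⟩
  n010 := ⟨0, 0, 0, 0⟩
  n011 := ⟨0, 0, 0, 0⟩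
  n020 := ⟨0, 0, 0, 0⟩
  n100 := ⟨0, 0, 0, 0⟩
  n101 := ⟨0, 0, 0, 0⟩
  n110 := ⟨0, 0, 0, 0⟩
  n200 := ⟨0, 0, 0, 0⟩
  n201 := ⟨0, 0, 0, 0⟩
  n210 := ⟨0, 0, 0, 0⟩
  n300 := ⟨0, 0, 0, 0⟩
  n400 := ⟨0, 0, 0, 0⟩
  n500 := ⟨0, 0, 0, 0⟩
  e00 := ⟨0, 0, 0, 0⟩
  e01 := ⟨0, 0, 0, 0⟩
  e02 := ⟨0, 0, 0, 0⟩
  e03 := ⟨0, 0, 0, 0⟩
  e10 := ⟨0, 0, 0, 0⟩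
  e11 := ⟨0, 0, 0, 0⟩
  B1 := 0

def p1 : Pm where
  ec := ⟨8170504192, 0, 0, 0⟩
  bc := ⟨0, 0, 0, 0⟩
  nn := ⟨2199023255552, 0, 0, 0⟩
  tj := ⟨6597069766656, 0, 0, 0⟩
  ca := ⟨879662989312, 0, 0, 0⟩
  cb := ⟨769604452352, 0, 0, 0⟩
  cc := ⟨0, 0, 0, 0⟩
  ax := ⟨0, 0, 0, 0⟩
  ay := ⟨0, 0, 0, 0⟩
  xa := ⟨0, 0, 0, 0⟩
  C2 := ⟨0, 0, 0, 0⟩
  wr := ⟨0, 673772994560, 0, 0⟩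
  wi := ⟨5872294035456, 0, 0, 0⟩
  w1 := ⟨0, 45337674776576, 0, 0⟩
  h000 := ⟨0, 1126829760, 0, 0⟩
  h001 := ⟨0, 1879272768, 0, 0⟩
  h002 := ⟨5621966656, 0, 0, 0⟩
  h003 := ⟨0, 10798009408, 0, 0⟩
  h010 := ⟨0, 923558125696, 0, 0⟩
  h011 := ⟨0, 244549059264, 0, 0⟩
  h012 := ⟨0, 0, 0, 0⟩
  h020 := ⟨89785840318144, 0, 0, 0⟩
  h021 := ⟨0, 0, 0, 0⟩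
  h030 := ⟨0, 0, 0, 0⟩
  h100 := ⟨0, 150990784, 0, 0⟩
  h101 := ⟨0, 223232320, 0, 0⟩
  h102 := ⟨603643904, 0, 0, 0⟩
  h110 := ⟨0, 138439025088, 0, 0⟩
  h111 := ⟨0, 377768951552, 0, 0⟩
  h120 := ⟨0, 0, 0, 0⟩
  h200 := ⟨0, 201227072, 0, 0⟩
  h201 := ⟨0, 52334976, 0, 0⟩
  h202 := ⟨335569600, 0, 0, 0⟩
  h210 := ⟨30412805632, 0, 0, 0⟩
  h211 := ⟨0, 0, 0, 0⟩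
  h300 := ⟨44426752, 0, 0, 0⟩
  h301 := ⟨6125568, 0, 0, 0⟩
  h310 := ⟨0, 8518710464, 0, 0⟩
  h400 := ⟨0, 922240, 0, 0⟩
  h401 := ⟨0, 2418560, 0, 0⟩
  h410 := ⟨0, 0, 0, 0⟩
  h500 := ⟨0, 526656, 0, 0⟩
  h501 := ⟨0, 0, 0, 0⟩
  h600 := ⟨171648, 0, 0, 0⟩
  h700 := ⟨0, 0, 0, 0⟩
  h800 := ⟨0, 0, 0, 0⟩
  m000 := ⟨1097489383424, 0, 0, 0⟩
  m001 := ⟨0, 534183936, 0, 0⟩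
  m002 := ⟨3116367872, 0, 0, 0⟩
  m010 := ⟨320405307392, 0, 0, 0⟩
  m100 := ⟨5148573696, 0, 0, 0⟩
  m101 := ⟨45350912, 0, 0, 0⟩
  m110 := ⟨482762227712, 0, 0, 0⟩
  m200 := ⟨0, 263192576, 0, 0⟩
  m300 := ⟨37486592, 0, 0, 0⟩
  a00 := ⟨103466663936, 0, 0, 0⟩
  a01 := ⟨158041112576, 0, 0, 0⟩
  a02 := ⟨0, 238467416064, 0, 0⟩
  a03 := ⟨0, 1125802311680, 0, 0⟩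
  a10 := ⟨5349608456192, 0, 0, 0⟩
  a11 := ⟨22571592581120, 0, 0, 0⟩
  b00 := ⟨91450966016, 0, 0, 0⟩
  b01 := ⟨125943283712, 0, 0, 0⟩
  b02 := ⟨0, 248796872704, 0, 0⟩
  b03 := ⟨0, 812666126336, 0, 0⟩
  b10 := ⟨3676120023040, 0, 0, 0⟩
  b11 := ⟨19161741000704, 0, 0, 0⟩
  t00 := ⟨1187660693504, 0, 0, 0⟩
  t01 := ⟨387864395776, 0, 0, 0⟩
  t02 := ⟨0, 5351011319808, 0, 0⟩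
  t03 := ⟨0, 1642008870912, 0, 0⟩
  t10 := ⟨78634180280320, 0, 0, 0⟩
  t11 := ⟨76147858145280, 0, 0, 0⟩
  s00 := ⟨3247902490624, 0, 0, 0⟩
  s01 := ⟨1449230401536, 0, 0, 0⟩
  s02 := ⟨0, 11060781056000, 0, 0⟩
  s03 := ⟨4844368756736, 0, 0, 0⟩
  s10 := ⟨134501742018560, 0, 0, 0⟩
  s11 := ⟨63253848457216, 0, 0, 0⟩
  g00 := ⟨34092929024, 0, 0, 0⟩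
  g01 := ⟨0, 10677043456, 0, 0⟩
  g10 := ⟨6265420652160, 0, 0, 0⟩
  g11 := ⟨0, 0, 0, 0⟩
  f00 := ⟨8767094144, 0, 0, 0⟩
  f01 := ⟨133594236800, 0, 0, 0⟩
  f10 := ⟨22450407905792, 0, 0, 0⟩
  f11 := ⟨0, 0, 0, 0⟩
  l000 := ⟨0, 0, 0, 0⟩
  l001 := ⟨0, 0, 0, 0⟩
  l002 := ⟨0, 0, 0, 0⟩
  l010 := ⟨0, 0, 0, 0⟩
  l011 := ⟨0, 0, 0, 0⟩
  l020 := ⟨0, 0, 0, 0⟩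
  l100 := ⟨0, 0, 0, 0⟩
  l101 := ⟨0, 0, 0, 0⟩
  l102 := ⟨0, 0, 0, 0⟩
  l110 := ⟨0, 0, 0, 0⟩
  l111 := ⟨0, 0, 0, 0⟩
  l120 := ⟨0, 0, 0, 0⟩
  l200 := ⟨0, 0, 0, 0⟩
  l201 := ⟨0, 0, 0, 0⟩
  l210 := ⟨0, 0, 0, 0⟩
  l300 := ⟨0, 0, 0, 0⟩
  l301 := ⟨0, 0, 0, 0⟩
  l310 := ⟨0, 0, 0, 0⟩
  l400 := ⟨0, 0, 0, 0⟩
  l401 := ⟨0, 0, 0, 0⟩
  l410 := ⟨0, 0, 0, 0⟩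
  l500 := ⟨0, 0, 0, 0⟩
  l501 := ⟨0, 0, 0, 0⟩
  l510 := ⟨0, 0, 0, 0⟩
  l600 := ⟨0, 0, 0, 0⟩
  l700 := ⟨0, 0, 0, 0⟩
  l800 := ⟨0, 0, 0, 0⟩
  l900 := ⟨0, 0, 0, 0⟩
  l1000 := ⟨0, 0, 0, 0⟩
  l1100 := ⟨0, 0, 0, 0⟩
  q00 := ⟨0, 0, 0, 0⟩
  q01 := ⟨0, 0, 0, 0⟩
  q02 := ⟨0, 0, 0, 0⟩
  q03 := ⟨0, 0, 0, 0⟩
  q10 := ⟨0, 0, 0, 0⟩
  q11 := ⟨0, 0, 0, 0⟩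
  q12 := ⟨0, 0, 0, 0⟩
  q20 := ⟨0, 0, 0, 0⟩
  q21 := ⟨0, 0, 0, 0⟩
  q30 := ⟨0, 0, 0, 0⟩
  n000 := ⟨0, 0, 0, 0⟩
  n001 := ⟨0, 0, 0, 0⟩
  n002 := ⟨0, 0, 0, 0⟩
  n010 := ⟨0, 0, 0, 0⟩
  n011 := ⟨0, 0, 0, 0⟩
  n020 := ⟨0, 0, 0, 0⟩
  n100 := ⟨0, 0, 0, 0⟩
  n101 := ⟨0, 0, 0, 0⟩
  n110 := ⟨0, 0, 0, 0⟩
  n200 := ⟨0, 0, 0, 0⟩
  n201 := ⟨0, 0, 0, 0⟩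
  n210 := ⟨0, 0, 0, 0⟩
  n300 := ⟨0, 0, 0, 0⟩
  n400 := ⟨0, 0, 0, 0⟩
  n500 := ⟨0, 0, 0, 0⟩
  e00 := ⟨0, 0, 0, 0⟩
  e01 := ⟨0, 0, 0, 0⟩
  e02 := ⟨0, 0, 0, 0⟩
  e03 := ⟨0, 0, 0, 0⟩
  e10 := ⟨0, 0, 0, 0⟩
  e11 := ⟨0, 0, 0, 0⟩
  B1 := 0

def p2 : Pm where
  ec := ⟨8170504192, 0, 0, 0⟩
  bc := ⟨0, 0, 0, 0⟩
  nn := ⟨3298534883328, 0, 0, 0⟩
  tj := ⟨8796093022208, 0, 0, 0⟩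
  ca := ⟨769604452352, 0, 0, 0⟩
  cb := ⟨659814350848, 0, 0, 0⟩
  cc := ⟨0, 0, 0, 0⟩
  ax := ⟨0, 0, 0, 0⟩
  ay := ⟨0, 0, 0, 0⟩
  xa := ⟨0, 0, 0, 0⟩
  C2 := ⟨0, 0, 0, 0⟩
  wr := ⟨0, 673772994560, 0, 0⟩
  wi := ⟨5872294035456, 0, 0, 0⟩
  w1 := ⟨0, 45337674776576, 0, 0⟩
  h000 := ⟨0, 1126829760, 0, 0⟩
  h001 := ⟨0, 1879272768, 0, 0⟩
  h002 := ⟨5621966656, 0, 0, 0⟩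
  h003 := ⟨0, 10798009408, 0, 0⟩
  h010 := ⟨0, 923558125696, 0, 0⟩
  h011 := ⟨0, 244549059264, 0, 0⟩
  h012 := ⟨0, 0, 0, 0⟩
  h020 := ⟨89785840318144, 0, 0, 0⟩
  h021 := ⟨0, 0, 0, 0⟩
  h030 := ⟨0, 0, 0, 0⟩
  h100 := ⟨0, 150990784, 0, 0⟩
  h101 := ⟨0, 223232320, 0, 0⟩
  h102 := ⟨603643904, 0, 0, 0⟩
  h110 := ⟨0, 138439025088, 0, 0⟩
  h111 := ⟨0, 377768951552, 0, 0⟩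
  h120 := ⟨0, 0, 0, 0⟩
  h200 := ⟨0, 201227072, 0, 0⟩
  h201 := ⟨0, 52334976, 0, 0⟩
  h202 := ⟨335569600, 0, 0, 0⟩
  h210 := ⟨30412805632, 0, 0, 0⟩
  h211 := ⟨0, 0, 0, 0⟩
  h300 := ⟨44426752, 0, 0, 0⟩
  h301 := ⟨6125568, 0, 0, 0⟩
  h310 := ⟨0, 8518710464, 0, 0⟩
  h400 := ⟨0, 922240, 0, 0⟩
  h401 := ⟨0, 2418560, 0, 0⟩
  h410 := ⟨0, 0, 0, 0⟩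
  h500 := ⟨0, 526656, 0, 0⟩
  h501 := ⟨0, 0, 0, 0⟩
  h600 := ⟨171648, 0, 0, 0⟩
  h700 := ⟨0, 0, 0, 0⟩
  h800 := ⟨0, 0, 0, 0⟩
  m000 := ⟨1098035953664, 0, 0, 0⟩
  m001 := ⟨0, 692060160, 0, 0⟩
  m002 := ⟨2675048448, 0, 0, 0⟩
  m010 := ⟨333064830976, 0, 0, 0⟩
  m100 := ⟨4978638848, 0, 0, 0⟩
  m101 := ⟨71237632, 0, 0, 0⟩
  m110 := ⟨486780698624, 0, 0, 0⟩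
  m200 := ⟨0, 228917248, 0, 0⟩
  m300 := ⟨33030144, 0, 0, 0⟩
  a00 := ⟨91450966016, 0, 0, 0⟩
  a01 := ⟨125943283712, 0, 0, 0⟩
  a02 := ⟨0, 248796872704, 0, 0⟩
  a03 := ⟨0, 812666126336, 0, 0⟩
  a10 := ⟨3676120023040, 0, 0, 0⟩
  a11 := ⟨19161741000704, 0, 0, 0⟩
  b00 := ⟨81470291968, 0, 0, 0⟩
  b01 := ⟨99056746496, 0, 0, 0⟩
  b02 := ⟨0, 241943707648, 0, 0⟩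
  b03 := ⟨0, 586638950400, 0, 0⟩
  b10 := ⟨2367269306368, 0, 0, 0⟩
  b11 := ⟨16299715067904, 0, 0, 0⟩
  t00 := ⟨1050479296512, 0, 0, 0⟩
  t01 := ⟨298387701760, 0, 0, 0⟩
  t02 := ⟨0, 4673631027200, 0, 0⟩
  t03 := ⟨0, 1188043685888, 0, 0⟩
  t10 := ⟨57327704735744, 0, 0, 0⟩
  t11 := ⟨82045082599424, 0, 0, 0⟩
  s00 := ⟨4435563184128, 0, 0, 0⟩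
  s01 := ⟨1837094797312, 0, 0, 0⟩
  s02 := ⟨0, 16411792375808, 0, 0⟩
  s03 := ⟨3202359885824, 0, 0, 0⟩
  s10 := ⟨213135922298880, 0, 0, 0⟩
  s11 := ⟨139401706602496, 0, 0, 0⟩
  g00 := ⟨34092929024, 0, 0, 0⟩
  g01 := ⟨0, 10677043456, 0, 0⟩
  g10 := ⟨6265420652160, 0, 0, 0⟩
  g11 := ⟨0, 0, 0, 0⟩
  f00 := ⟨8767094144, 0, 0, 0⟩
  f01 := ⟨133594236800, 0, 0, 0⟩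
  f10 := ⟨22450407905792, 0, 0, 0⟩
  f11 := ⟨0, 0, 0, 0⟩
  l000 := ⟨0, 0, 0, 0⟩
  l001 := ⟨0, 0, 0, 0⟩
  l002 := ⟨0, 0, 0, 0⟩
  l010 := ⟨0, 0, 0, 0⟩
  l011 := ⟨0, 0, 0, 0⟩
  l020 := ⟨0, 0, 0, 0⟩
  l100 := ⟨0, 0, 0, 0⟩
  l101 := ⟨0, 0, 0, 0⟩
  l102 := ⟨0, 0, 0, 0⟩
  l110 := ⟨0, 0, 0, 0⟩
  l111 := ⟨0, 0, 0, 0⟩
  l120 := ⟨0, 0, 0, 0⟩
  l200 := ⟨0, 0, 0, 0⟩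
  l201 := ⟨0, 0, 0, 0⟩
  l210 := ⟨0, 0, 0, 0⟩
  l300 := ⟨0, 0, 0, 0⟩
  l301 := ⟨0, 0, 0, 0⟩
  l310 := ⟨0, 0, 0, 0⟩
  l400 := ⟨0, 0, 0, 0⟩
  l401 := ⟨0, 0, 0, 0⟩
  l410 := ⟨0, 0, 0, 0⟩
  l500 := ⟨0, 0, 0, 0⟩
  l501 := ⟨0, 0, 0, 0⟩
  l510 := ⟨0, 0, 0, 0⟩
  l600 := ⟨0, 0, 0, 0⟩
  l700 := ⟨0, 0, 0, 0⟩
  l800 := ⟨0, 0, 0, 0⟩
  l900 := ⟨0, 0, 0, 0⟩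
  l1000 := ⟨0, 0, 0, 0⟩
  l1100 := ⟨0, 0, 0, 0⟩
  q00 := ⟨0, 0, 0, 0⟩
  q01 := ⟨0, 0, 0, 0⟩
  q02 := ⟨0, 0, 0, 0⟩
  q03 := ⟨0, 0, 0, 0⟩
  q10 := ⟨0, 0, 0, 0⟩
  q11 := ⟨0, 0, 0, 0⟩
  q12 := ⟨0, 0, 0, 0⟩
  q20 := ⟨0, 0, 0, 0⟩
  q21 := ⟨0, 0, 0, 0⟩
  q30 := ⟨0, 0, 0, 0⟩
  n000 := ⟨0, 0, 0, 0⟩
  n001 := ⟨0, 0, 0, 0⟩
  n002 := ⟨0, 0, 0, 0⟩
  n010 := ⟨0, 0, 0, 0⟩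
  n011 := ⟨0, 0, 0, 0⟩
  n020 := ⟨0, 0, 0, 0⟩
  n100 := ⟨0, 0, 0, 0⟩
  n101 := ⟨0, 0, 0, 0⟩
  n110 := ⟨0, 0, 0, 0⟩
  n200 := ⟨0, 0, 0, 0⟩
  n201 := ⟨0, 0, 0, 0⟩
  n210 := ⟨0, 0, 0, 0⟩
  n300 := ⟨0, 0, 0, 0⟩
  n400 := ⟨0, 0, 0, 0⟩
  n500 := ⟨0, 0, 0, 0⟩
  e00 := ⟨0, 0, 0, 0⟩
  e01 := ⟨0, 0, 0, 0⟩
  e02 := ⟨0, 0, 0, 0⟩
  e03 := ⟨0, 0, 0, 0⟩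
  e10 := ⟨0, 0, 0, 0⟩
  e11 := ⟨0, 0, 0, 0⟩
  B1 := 0

def p3 : Pm where
  ec := ⟨8170504192, 0, 0, 0⟩
  bc := ⟨0, 0, 0, 0⟩
  nn := ⟨4398046511104, 0, 0, 0⟩
  tj := ⟨10995116277760, 0, 0, 0⟩
  ca := ⟨659814350848, 0, 0, 0⟩
  cb := ⟨549755813888, 0, 0, 0⟩
  cc := ⟨0, 0, 0, 0⟩
  ax := ⟨0, 0, 0, 0⟩
  ay := ⟨0, 0, 0, 0⟩
  xa := ⟨0, 0, 0, 0⟩
  C2 := ⟨0, 0, 0, 0⟩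
  wr := ⟨0, 673772994560, 0, 0⟩
  wi := ⟨5872294035456, 0, 0, 0⟩
  w1 := ⟨0, 45337674776576, 0, 0⟩
  h000 := ⟨0, 1126829760, 0, 0⟩
  h001 := ⟨0, 1879272768, 0, 0⟩
  h002 := ⟨5621966656, 0, 0, 0⟩
  h003 := ⟨0, 10798009408, 0, 0⟩
  h010 := ⟨0, 923558125696, 0, 0⟩
  h011 := ⟨0, 244549059264, 0, 0⟩
  h012 := ⟨0, 0, 0, 0⟩
  h020 := ⟨89785840318144, 0, 0, 0⟩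
  h021 := ⟨0, 0, 0, 0⟩
  h030 := ⟨0, 0, 0, 0⟩
  h100 := ⟨0, 150990784, 0, 0⟩
  h101 := ⟨0, 223232320, 0, 0⟩
  h102 := ⟨603643904, 0, 0, 0⟩
  h110 := ⟨0, 138439025088, 0, 0⟩
  h111 := ⟨0, 377768951552, 0, 0⟩
  h120 := ⟨0, 0, 0, 0⟩
  h200 := ⟨0, 201227072, 0, 0⟩
  h201 := ⟨0, 52334976, 0, 0⟩
  h202 := ⟨335569600, 0, 0, 0⟩
  h210 := ⟨30412805632, 0, 0, 0⟩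
  h211 := ⟨0, 0, 0, 0⟩
  h300 := ⟨44426752, 0, 0, 0⟩
  h301 := ⟨6125568, 0, 0, 0⟩
  h310 := ⟨0, 8518710464, 0, 0⟩
  h400 := ⟨0, 922240, 0, 0⟩
  h401 := ⟨0, 2418560, 0, 0⟩
  h410 := ⟨0, 0, 0, 0⟩
  h500 := ⟨0, 526656, 0, 0⟩
  h501 := ⟨0, 0, 0, 0⟩
  h600 := ⟨171648, 0, 0, 0⟩
  h700 := ⟨0, 0, 0, 0⟩
  h800 := ⟨0, 0, 0, 0⟩
  m000 := ⟨1098510696448, 0, 0, 0⟩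
  m001 := ⟨0, 757596160, 0, 0⟩
  m002 := ⟨1949892608, 0, 0, 0⟩
  m010 := ⟨322201452544, 0, 0, 0⟩
  m100 := ⟨4819058688, 0, 0, 0⟩
  m101 := ⟨102563840, 0, 0, 0⟩
  m110 := ⟨489341845504, 0, 0, 0⟩
  m200 := ⟨0, 196214784, 0, 0⟩
  m300 := ⟨28704768, 0, 0, 0⟩
  a00 := ⟨81470291968, 0, 0, 0⟩
  a01 := ⟨99056746496, 0, 0, 0⟩
  a02 := ⟨0, 241943707648, 0, 0⟩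
  a03 := ⟨0, 586638950400, 0, 0⟩
  a10 := ⟨2367269306368, 0, 0, 0⟩
  a11 := ⟨16299715067904, 0, 0, 0⟩
  b00 := ⟨73193029632, 0, 0, 0⟩
  b01 := ⟨77947469824, 0, 0, 0⟩
  b02 := ⟨0, 224895631360, 0, 0⟩
  b03 := ⟨0, 447839928320, 0, 0⟩
  b10 := ⟨1233888608256, 0, 0, 0⟩
  b11 := ⟨14458298499072, 0, 0, 0⟩
  t00 := ⟨935395852288, 0, 0, 0⟩
  t01 := ⟨259961978880, 0, 0, 0⟩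
  t02 := ⟨0, 4134945751040, 0, 0⟩
  t03 := ⟨0, 1197785743360, 0, 0⟩
  t10 := ⟨40763240218624, 0, 0, 0⟩
  t11 := ⟨80289567211520, 0, 0, 0⟩
  s00 := ⟨5486042480640, 0, 0, 0⟩
  s01 := ⟨2135482499072, 0, 0, 0⟩
  s02 := ⟨0, 21085423403008, 0, 0⟩
  s03 := ⟨2014316199936, 0, 0, 0⟩
  s10 := ⟨270463627034624, 0, 0, 0⟩
  s11 := ⟨221446789201920, 0, 0, 0⟩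
  g00 := ⟨34092929024, 0, 0, 0⟩
  g01 := ⟨0, 10677043456, 0, 0⟩
  g10 := ⟨6265420652160, 0, 0, 0⟩
  g11 := ⟨0, 0, 0, 0⟩
  f00 := ⟨8767094144, 0, 0, 0⟩
  f01 := ⟨133594236800, 0, 0, 0⟩
  f10 := ⟨22450407905792, 0, 0, 0⟩
  f11 := ⟨0, 0, 0, 0⟩
  l000 := ⟨0, 0, 0, 0⟩
  l001 := ⟨0, 0, 0, 0⟩
  l002 := ⟨0, 0, 0, 0⟩
  l010 := ⟨0, 0, 0, 0⟩
  l011 := ⟨0, 0, 0, 0⟩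
  l020 := ⟨0, 0, 0, 0⟩
  l100 := ⟨0, 0, 0, 0⟩
  l101 := ⟨0, 0, 0, 0⟩
  l102 := ⟨0, 0, 0, 0⟩
  l110 := ⟨0, 0, 0, 0⟩
  l111 := ⟨0, 0, 0, 0⟩
  l120 := ⟨0, 0, 0, 0⟩
  l200 := ⟨0, 0, 0, 0⟩
  l201 := ⟨0, 0, 0, 0⟩
  l210 := ⟨0, 0, 0, 0⟩
  l300 := ⟨0, 0, 0, 0⟩
  l301 := ⟨0, 0, 0, 0⟩
  l310 := ⟨0, 0, 0, 0⟩
  l400 := ⟨0, 0, 0, 0⟩
  l401 := ⟨0, 0, 0, 0⟩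
  l410 := ⟨0, 0, 0, 0⟩
  l500 := ⟨0, 0, 0, 0⟩
  l501 := ⟨0, 0, 0, 0⟩
  l510 := ⟨0, 0, 0, 0⟩
  l600 := ⟨0, 0, 0, 0⟩
  l700 := ⟨0, 0, 0, 0⟩
  l800 := ⟨0, 0, 0, 0⟩
  l900 := ⟨0, 0, 0, 0⟩
  l1000 := ⟨0, 0, 0, 0⟩
  l1100 := ⟨0, 0, 0, 0⟩
  q00 := ⟨0, 0, 0, 0⟩
  q01 := ⟨0, 0, 0, 0⟩
  q02 := ⟨0, 0, 0, 0⟩
  q03 := ⟨0, 0, 0, 0⟩
  q10 := ⟨0, 0, 0, 0⟩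
  q11 := ⟨0, 0, 0, 0⟩
  q12 := ⟨0, 0, 0, 0⟩
  q20 := ⟨0, 0, 0, 0⟩
  q21 := ⟨0, 0, 0, 0⟩
  q30 := ⟨0, 0, 0, 0⟩
  n000 := ⟨0, 0, 0, 0⟩
  n001 := ⟨0, 0, 0, 0⟩
  n002 := ⟨0, 0, 0, 0⟩
  n010 := ⟨0, 0, 0, 0⟩
  n011 := ⟨0, 0, 0, 0⟩
  n020 := ⟨0, 0, 0, 0⟩
  n100 := ⟨0, 0, 0, 0⟩
  n101 := ⟨0, 0, 0, 0⟩
  n110 := ⟨0, 0, 0, 0⟩
  n200 := ⟨0, 0, 0, 0⟩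
  n201 := ⟨0, 0, 0, 0⟩
  n210 := ⟨0, 0, 0, 0⟩
  n300 := ⟨0, 0, 0, 0⟩
  n400 := ⟨0, 0, 0, 0⟩
  n500 := ⟨0, 0, 0, 0⟩
  e00 := ⟨0, 0, 0, 0⟩
  e01 := ⟨0, 0, 0, 0⟩
  e02 := ⟨0, 0, 0, 0⟩
  e03 := ⟨0, 0, 0, 0⟩
  e10 := ⟨0, 0, 0, 0⟩
  e11 := ⟨0, 0, 0, 0⟩
  B1 := 0

def p4 : Pm where
  ec := ⟨8170504192, 0, 0, 0⟩
  bc := ⟨0, 0, 0, 0⟩
  nn := ⟨5497558138880, 0, 0, 0⟩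
  tj := ⟨13194139533312, 0, 0, 0⟩
  ca := ⟨549755813888, 0, 0, 0⟩
  cb := ⟨439697276928, 0, 0, 0⟩
  cc := ⟨0, 0, 0, 0⟩
  ax := ⟨0, 0, 0, 0⟩
  ay := ⟨0, 0, 0, 0⟩
  xa := ⟨0, 0, 0, 0⟩
  C2 := ⟨0, 0, 0, 0⟩
  wr := ⟨0, 673772994560, 0, 0⟩
  wi := ⟨5872294035456, 0, 0, 0⟩
  w1 := ⟨0, 45337674776576, 0, 0⟩
  h000 := ⟨0, 1126829760, 0, 0⟩
  h001 := ⟨0, 1879272768, 0, 0⟩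
  h002 := ⟨5621966656, 0, 0, 0⟩
  h003 := ⟨0, 10798009408, 0, 0⟩
  h010 := ⟨0, 923558125696, 0, 0⟩
  h011 := ⟨0, 244549059264, 0, 0⟩
  h012 := ⟨0, 0, 0, 0⟩
  h020 := ⟨89785840318144, 0, 0, 0⟩
  h021 := ⟨0, 0, 0, 0⟩
  h030 := ⟨0, 0, 0, 0⟩
  h100 := ⟨0, 150990784, 0, 0⟩
  h101 := ⟨0, 223232320, 0, 0⟩
  h102 := ⟨603643904, 0, 0, 0⟩
  h110 := ⟨0, 138439025088, 0, 0⟩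
  h111 := ⟨0, 377768951552, 0, 0⟩
  h120 := ⟨0, 0, 0, 0⟩
  h200 := ⟨0, 201227072, 0, 0⟩
  h201 := ⟨0, 52334976, 0, 0⟩
  h202 := ⟨335569600, 0, 0, 0⟩
  h210 := ⟨30412805632, 0, 0, 0⟩
  h211 := ⟨0, 0, 0, 0⟩
  h300 := ⟨44426752, 0, 0, 0⟩
  h301 := ⟨6125568, 0, 0, 0⟩
  h310 := ⟨0, 8518710464, 0, 0⟩
  h400 := ⟨0, 922240, 0, 0⟩
  h401 := ⟨0, 2418560, 0, 0⟩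
  h410 := ⟨0, 0, 0, 0⟩
  h500 := ⟨0, 526656, 0, 0⟩
  h501 := ⟨0, 0, 0, 0⟩
  h600 := ⟨171648, 0, 0, 0⟩
  h700 := ⟨0, 0, 0, 0⟩
  h800 := ⟨0, 0, 0, 0⟩
  m000 := ⟨1098896441344, 0, 0, 0⟩
  m001 := ⟨0, 730988544, 0, 0⟩
  m002 := ⟨1179320320, 0, 0, 0⟩
  m010 := ⟨293964939264, 0, 0, 0⟩
  m100 := ⟨4676190208, 0, 0, 0⟩
  m101 := ⟨131858432, 0, 0, 0⟩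
  m110 := ⟨492209045504, 0, 0, 0⟩
  m200 := ⟨0, 166264832, 0, 0⟩
  m300 := ⟨24707072, 0, 0, 0⟩
  a00 := ⟨73193029632, 0, 0, 0⟩
  a01 := ⟨77947469824, 0, 0, 0⟩
  a02 := ⟨0, 224895631360, 0, 0⟩
  a03 := ⟨0, 447839928320, 0, 0⟩
  a10 := ⟨1233888608256, 0, 0, 0⟩
  a11 := ⟨14458298499072, 0, 0, 0⟩
  b00 := ⟨66400354304, 0, 0, 0⟩
  b01 := ⟨60573548544, 0, 0, 0⟩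
  b02 := ⟨0, 206886535168, 0, 0⟩
  b03 := ⟨0, 342396829696, 0, 0⟩
  b10 := ⟨209171972096, 0, 0, 0⟩
  b11 := ⟨13478555680768, 0, 0, 0⟩
  t00 := ⟨840717893632, 0, 0, 0⟩
  t01 := ⟨258810773504, 0, 0, 0⟩
  t02 := ⟨0, 4123015053312, 0, 0⟩
  t03 := ⟨92684353536, 0, 0, 0⟩
  t10 := ⟨26274381692928, 0, 0, 0⟩
  t11 := ⟨84671458050048, 0, 0, 0⟩
  s00 := ⟨6421438332928, 0, 0, 0⟩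
  s01 := ⟨2395444477952, 0, 0, 0⟩
  s02 := ⟨0, 25220369154048, 0, 0⟩
  s03 := ⟨816530456576, 0, 0, 0⟩
  s10 := ⟨311226867253248, 0, 0, 0⟩
  s11 := ⟨301736356413440, 0, 0, 0⟩
  g00 := ⟨34092929024, 0, 0, 0⟩
  g01 := ⟨0, 10677043456, 0, 0⟩
  g10 := ⟨6265420652160, 0, 0, 0⟩
  g11 := ⟨0, 0, 0, 0⟩
  f00 := ⟨8767094144, 0, 0, 0⟩
  f01 := ⟨133594236800, 0, 0, 0⟩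
  f10 := ⟨22450407905792, 0, 0, 0⟩
  f11 := ⟨0, 0, 0, 0⟩
  l000 := ⟨0, 0, 0, 0⟩
  l001 := ⟨0, 0, 0, 0⟩
  l002 := ⟨0, 0, 0, 0⟩
  l010 := ⟨0, 0, 0, 0⟩
  l011 := ⟨0, 0, 0, 0⟩
  l020 := ⟨0, 0, 0, 0⟩
  l100 := ⟨0, 0, 0, 0⟩
  l101 := ⟨0, 0, 0, 0⟩
  l102 := ⟨0, 0, 0, 0⟩
  l110 := ⟨0, 0, 0, 0⟩
  l111 := ⟨0, 0, 0, 0⟩
  l120 := ⟨0, 0, 0, 0⟩
  l200 := ⟨0, 0, 0, 0⟩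
  l201 := ⟨0, 0, 0, 0⟩
  l210 := ⟨0, 0, 0, 0⟩
  l300 := ⟨0, 0, 0, 0⟩
  l301 := ⟨0, 0, 0, 0⟩
  l310 := ⟨0, 0, 0, 0⟩
  l400 := ⟨0, 0, 0, 0⟩
  l401 := ⟨0, 0, 0, 0⟩
  l410 := ⟨0, 0, 0, 0⟩
  l500 := ⟨0, 0, 0, 0⟩
  l501 := ⟨0, 0, 0, 0⟩
  l510 := ⟨0, 0, 0, 0⟩
  l600 := ⟨0, 0, 0, 0⟩
  l700 := ⟨0, 0, 0, 0⟩
  l800 := ⟨0, 0, 0, 0⟩
  l900 := ⟨0, 0, 0, 0⟩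
  l1000 := ⟨0, 0, 0, 0⟩
  l1100 := ⟨0, 0, 0, 0⟩
  q00 := ⟨0, 0, 0, 0⟩
  q01 := ⟨0, 0, 0, 0⟩
  q02 := ⟨0, 0, 0, 0⟩
  q03 := ⟨0, 0, 0, 0⟩
  q10 := ⟨0, 0, 0, 0⟩
  q11 := ⟨0, 0, 0, 0⟩
  q12 := ⟨0, 0, 0, 0⟩
  q20 := ⟨0, 0, 0, 0⟩
  q21 := ⟨0, 0, 0, 0⟩
  q30 := ⟨0, 0, 0, 0⟩
  n000 := ⟨0, 0, 0, 0⟩
  n001 := ⟨0, 0, 0, 0⟩
  n002 := ⟨0, 0, 0, 0⟩
  n010 := ⟨0, 0, 0, 0⟩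
  n011 := ⟨0, 0, 0, 0⟩
  n020 := ⟨0, 0, 0, 0⟩
  n100 := ⟨0, 0, 0, 0⟩
  n101 := ⟨0, 0, 0, 0⟩
  n110 := ⟨0, 0, 0, 0⟩
  n200 := ⟨0, 0, 0, 0⟩
  n201 := ⟨0, 0, 0, 0⟩
  n210 := ⟨0, 0, 0, 0⟩
  n300 := ⟨0, 0, 0, 0⟩
  n400 := ⟨0, 0, 0, 0⟩
  n500 := ⟨0, 0, 0, 0⟩
  e00 := ⟨0, 0, 0, 0⟩
  e01 := ⟨0, 0, 0, 0⟩
  e02 := ⟨0, 0, 0, 0⟩
  e03 := ⟨0, 0, 0, 0⟩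
  e10 := ⟨0, 0, 0, 0⟩
  e11 := ⟨0, 0, 0, 0⟩
  B1 := 0

def p5 : Pm where
  ec := ⟨8170504192, 0, 0, 0⟩
  bc := ⟨0, 0, 0, 0⟩
  nn := ⟨6597069766656, 0, 0, 0⟩
  tj := ⟨15393162788864, 0, 0, 0⟩
  ca := ⟨439697276928, 0, 0, 0⟩
  cb := ⟨384936443904, 0, 0, 0⟩
  cc := ⟨0, 0, 0, 0⟩
  ax := ⟨0, 0, 0, 0⟩
  ay := ⟨0, 0, 0, 0⟩
  xa := ⟨0, 0, 0, 0⟩
  C2 := ⟨0, 0, 0, 0⟩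
  wr := ⟨0, 673772994560, 0, 0⟩
  wi := ⟨5872294035456, 0, 0, 0⟩
  w1 := ⟨0, 45337674776576, 0, 0⟩
  h000 := ⟨0, 1126829760, 0, 0⟩
  h001 := ⟨0, 1879272768, 0, 0⟩
  h002 := ⟨5621966656, 0, 0, 0⟩
  h003 := ⟨0, 10798009408, 0, 0⟩
  h010 := ⟨0, 923558125696, 0, 0⟩
  h011 := ⟨0, 244549059264, 0, 0⟩
  h012 := ⟨0, 0, 0, 0⟩
  h020 := ⟨89785840318144, 0, 0, 0⟩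
  h021 := ⟨0, 0, 0, 0⟩
  h030 := ⟨0, 0, 0, 0⟩
  h100 := ⟨0, 150990784, 0, 0⟩
  h101 := ⟨0, 223232320, 0, 0⟩
  h102 := ⟨603643904, 0, 0, 0⟩
  h110 := ⟨0, 138439025088, 0, 0⟩
  h111 := ⟨0, 377768951552, 0, 0⟩
  h120 := ⟨0, 0, 0, 0⟩
  h200 := ⟨0, 201227072, 0, 0⟩
  h201 := ⟨0, 52334976, 0, 0⟩
  h202 := ⟨335569600, 0, 0, 0⟩
  h210 := ⟨30412805632, 0, 0, 0⟩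
  h211 := ⟨0, 0, 0, 0⟩
  h300 := ⟨44426752, 0, 0, 0⟩
  h301 := ⟨6125568, 0, 0, 0⟩
  h310 := ⟨0, 8518710464, 0, 0⟩
  h400 := ⟨0, 922240, 0, 0⟩
  h401 := ⟨0, 2418560, 0, 0⟩
  h410 := ⟨0, 0, 0, 0⟩
  h500 := ⟨0, 526656, 0, 0⟩
  h501 := ⟨0, 0, 0, 0⟩
  h600 := ⟨171648, 0, 0, 0⟩
  h700 := ⟨0, 0, 0, 0⟩
  h800 := ⟨0, 0, 0, 0⟩
  m000 := ⟨1099203805184, 0, 0, 0⟩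
  m001 := ⟨0, 636223488, 0, 0⟩
  m002 := ⟨513802240, 0, 0, 0⟩
  m010 := ⟨256777519104, 0, 0, 0⟩
  m100 := ⟨4551278592, 0, 0, 0⟩
  m101 := ⟨150732800, 0, 0, 0⟩
  m110 := ⟨496255631360, 0, 0, 0⟩
  m200 := ⟨0, 139329536, 0, 0⟩
  m300 := ⟨21037056, 0, 0, 0⟩
  a00 := ⟨66400354304, 0, 0, 0⟩
  a01 := ⟨60573548544, 0, 0, 0⟩
  a02 := ⟨0, 206886535168, 0, 0⟩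
  a03 := ⟨0, 342396829696, 0, 0⟩
  a10 := ⟨209171972096, 0, 0, 0⟩
  a11 := ⟨13478555680768, 0, 0, 0⟩
  b00 := ⟨60816228352, 0, 0, 0⟩
  b01 := ⟨48297213952, 0, 0, 0⟩
  b02 := ⟨0, 230828343296, 0, 0⟩
  b03 := ⟨0, 138999889920, 0, 0⟩
  b10 := ⟨0, 754342756352, 0, 0⟩
  b11 := ⟨12492755828736, 0, 0, 0⟩
  t00 := ⟨762474397696, 0, 0, 0⟩
  t01 := ⟨254709792768, 0, 0, 0⟩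
  t02 := ⟨0, 4204094619648, 0, 0⟩
  t03 := ⟨1651906904064, 0, 0, 0⟩
  t10 := ⟨13325625851904, 0, 0, 0⟩
  t11 := ⟨90946790817792, 0, 0, 0⟩
  s00 := ⟨7262156226560, 0, 0, 0⟩
  s01 := ⟨2654255251456, 0, 0, 0⟩
  s02 := ⟨0, 29343384207360, 0, 0⟩
  s03 := ⟨909214810112, 0, 0, 0⟩
  s10 := ⟨337501248946176, 0, 0, 0⟩
  s11 := ⟨386407814463488, 0, 0, 0⟩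
  g00 := ⟨34092929024, 0, 0, 0⟩
  g01 := ⟨0, 10677043456, 0, 0⟩
  g10 := ⟨6265420652160, 0, 0, 0⟩
  g11 := ⟨0, 0, 0, 0⟩
  f00 := ⟨8767094144, 0, 0, 0⟩
  f01 := ⟨133594236800, 0, 0, 0⟩
  f10 := ⟨22450407905792, 0, 0, 0⟩
  f11 := ⟨0, 0, 0, 0⟩
  l000 := ⟨0, 0, 0, 0⟩
  l001 := ⟨0, 0, 0, 0⟩
  l002 := ⟨0, 0, 0, 0⟩
  l010 := ⟨0, 0, 0, 0⟩
  l011 := ⟨0, 0, 0, 0⟩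
  l020 := ⟨0, 0, 0, 0⟩
  l100 := ⟨0, 0, 0, 0⟩
  l101 := ⟨0, 0, 0, 0⟩
  l102 := ⟨0, 0, 0, 0⟩
  l110 := ⟨0, 0, 0, 0⟩
  l111 := ⟨0, 0, 0, 0⟩
  l120 := ⟨0, 0, 0, 0⟩
  l200 := ⟨0, 0, 0, 0⟩
  l201 := ⟨0, 0, 0, 0⟩
  l210 := ⟨0, 0, 0, 0⟩
  l300 := ⟨0, 0, 0, 0⟩
  l301 := ⟨0, 0, 0, 0⟩
  l310 := ⟨0, 0, 0, 0⟩
  l400 := ⟨0, 0, 0, 0⟩
  l401 := ⟨0, 0, 0, 0⟩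
  l410 := ⟨0, 0, 0, 0⟩
  l500 := ⟨0, 0, 0, 0⟩
  l501 := ⟨0, 0, 0, 0⟩
  l510 := ⟨0, 0, 0, 0⟩
  l600 := ⟨0, 0, 0, 0⟩
  l700 := ⟨0, 0, 0, 0⟩
  l800 := ⟨0, 0, 0, 0⟩
  l900 := ⟨0, 0, 0, 0⟩
  l1000 := ⟨0, 0, 0, 0⟩
  l1100 := ⟨0, 0, 0, 0⟩
  q00 := ⟨0, 0, 0, 0⟩
  q01 := ⟨0, 0, 0, 0⟩
  q02 := ⟨0, 0, 0, 0⟩
  q03 := ⟨0, 0, 0, 0⟩
  q10 := ⟨0, 0, 0, 0⟩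
  q11 := ⟨0, 0, 0, 0⟩
  q12 := ⟨0, 0, 0, 0⟩
  q20 := ⟨0, 0, 0, 0⟩
  q21 := ⟨0, 0, 0, 0⟩
  q30 := ⟨0, 0, 0, 0⟩
  n000 := ⟨0, 0, 0, 0⟩
  n001 := ⟨0, 0, 0, 0⟩
  n002 := ⟨0, 0, 0, 0⟩
  n010 := ⟨0, 0, 0, 0⟩
  n011 := ⟨0, 0, 0, 0⟩
  n020 := ⟨0, 0, 0, 0⟩
  n100 := ⟨0, 0, 0, 0⟩
  n101 := ⟨0, 0, 0, 0⟩
  n110 := ⟨0, 0, 0, 0⟩
  n200 := ⟨0, 0, 0, 0⟩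
  n201 := ⟨0, 0, 0, 0⟩
  n210 := ⟨0, 0, 0, 0⟩
  n300 := ⟨0, 0, 0, 0⟩
  n400 := ⟨0, 0, 0, 0⟩
  n500 := ⟨0, 0, 0, 0⟩
  e00 := ⟨0, 0, 0, 0⟩
  e01 := ⟨0, 0, 0, 0⟩
  e02 := ⟨0, 0, 0, 0⟩
  e03 := ⟨0, 0, 0, 0⟩
  e10 := ⟨0, 0, 0, 0⟩
  e11 := ⟨0, 0, 0, 0⟩
  B1 := 0

def p6 : Pm where
  ec := ⟨8170504192, 0, 0, 0⟩
  bc := ⟨0, 0, 0, 0⟩
  nn := ⟨7696581394432, 0, 0, 0⟩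
  tj := ⟨17592186044416, 0, 0, 0⟩
  ca := ⟨384936443904, 0, 0, 0⟩
  cb := ⟨329907175424, 0, 0, 0⟩
  cc := ⟨0, 0, 0, 0⟩
  ax := ⟨0, 0, 0, 0⟩
  ay := ⟨0, 0, 0, 0⟩
  xa := ⟨0, 0, 0, 0⟩
  C2 := ⟨0, 0, 0, 0⟩
  wr := ⟨0, 673772994560, 0, 0⟩
  wi := ⟨5872294035456, 0, 0, 0⟩
  w1 := ⟨0, 45337674776576, 0, 0⟩
  h000 := ⟨0, 1126829760, 0, 0⟩
  h001 := ⟨0, 1879272768, 0, 0⟩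
  h002 := ⟨5621966656, 0, 0, 0⟩
  h003 := ⟨0, 10798009408, 0, 0⟩
  h010 := ⟨0, 923558125696, 0, 0⟩
  h011 := ⟨0, 244549059264, 0, 0⟩
  h012 := ⟨0, 0, 0, 0⟩
  h020 := ⟨89785840318144, 0, 0, 0⟩
  h021 := ⟨0, 0, 0, 0⟩
  h030 := ⟨0, 0, 0, 0⟩
  h100 := ⟨0, 150990784, 0, 0⟩
  h101 := ⟨0, 223232320, 0, 0⟩
  h102 := ⟨603643904, 0, 0, 0⟩
  h110 := ⟨0, 138439025088, 0, 0⟩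
  h111 := ⟨0, 377768951552, 0, 0⟩
  h120 := ⟨0, 0, 0, 0⟩
  h200 := ⟨0, 201227072, 0, 0⟩
  h201 := ⟨0, 52334976, 0, 0⟩
  h202 := ⟨335569600, 0, 0, 0⟩
  h210 := ⟨30412805632, 0, 0, 0⟩
  h211 := ⟨0, 0, 0, 0⟩
  h300 := ⟨44426752, 0, 0, 0⟩
  h301 := ⟨6125568, 0, 0, 0⟩
  h310 := ⟨0, 8518710464, 0, 0⟩
  h400 := ⟨0, 922240, 0, 0⟩
  h401 := ⟨0, 2418560, 0, 0⟩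
  h410 := ⟨0, 0, 0, 0⟩
  h500 := ⟨0, 526656, 0, 0⟩
  h501 := ⟨0, 0, 0, 0⟩
  h600 := ⟨171648, 0, 0, 0⟩
  h700 := ⟨0, 0, 0, 0⟩
  h800 := ⟨0, 0, 0, 0⟩
  m000 := ⟨1099448975360, 0, 0, 0⟩
  m001 := ⟨0, 513015808, 0, 0⟩
  m002 := ⟨21561344, 0, 0, 0⟩
  m010 := ⟨218917568512, 0, 0, 0⟩
  m100 := ⟨4443013120, 0, 0, 0⟩
  m101 := ⟨157024256, 0, 0, 0⟩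
  m110 := ⟨501411610624, 0, 0, 0⟩
  m200 := ⟨0, 115212288, 0, 0⟩
  m300 := ⟨17694720, 0, 0, 0⟩
  a00 := ⟨60816228352, 0, 0, 0⟩
  a01 := ⟨48297213952, 0, 0, 0⟩
  a02 := ⟨0, 230828343296, 0, 0⟩
  a03 := ⟨0, 138999889920, 0, 0⟩
  a10 := ⟨0, 754342756352, 0, 0⟩
  a11 := ⟨12492755828736, 0, 0, 0⟩
  b00 := ⟨55696097280, 0, 0, 0⟩
  b01 := ⟨37809225728, 0, 0, 0⟩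
  b02 := ⟨0, 248440684544, 0, 0⟩
  b03 := ⟨32377470976, 0, 0, 0⟩
  b10 := ⟨0, 1560904138752, 0, 0⟩
  b11 := ⟨11742138728448, 0, 0, 0⟩
  t00 := ⟨699022114816, 0, 0, 0⟩
  t01 := ⟨166070714368, 0, 0, 0⟩
  t02 := ⟨0, 4110560788480, 0, 0⟩
  t03 := ⟨2957846708224, 0, 0, 0⟩
  t10 := ⟨1181891166208, 0, 0, 0⟩
  t11 := ⟨94632288387072, 0, 0, 0⟩
  s00 := ⟨8024630624256, 0, 0, 0⟩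
  s01 := ⟨2908965044224, 0, 0, 0⟩
  s02 := ⟨0, 33547478827008, 0, 0⟩
  s03 := ⟨2561121714176, 0, 0, 0⟩
  s10 := ⟨350826874798080, 0, 0, 0⟩
  s11 := ⟨477354605281280, 0, 0, 0⟩
  g00 := ⟨34092929024, 0, 0, 0⟩
  g01 := ⟨0, 10677043456, 0, 0⟩
  g10 := ⟨6265420652160, 0, 0, 0⟩
  g11 := ⟨0, 0, 0, 0⟩
  f00 := ⟨8767094144, 0, 0, 0⟩
  f01 := ⟨133594236800, 0, 0, 0⟩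
  f10 := ⟨22450407905792, 0, 0, 0⟩
  f11 := ⟨0, 0, 0, 0⟩
  l000 := ⟨0, 0, 0, 0⟩
  l001 := ⟨0, 0, 0, 0⟩
  l002 := ⟨0, 0, 0, 0⟩
  l010 := ⟨0, 0, 0, 0⟩
  l011 := ⟨0, 0, 0, 0⟩
  l020 := ⟨0, 0, 0, 0⟩
  l100 := ⟨0, 0, 0, 0⟩
  l101 := ⟨0, 0, 0, 0⟩
  l102 := ⟨0, 0, 0, 0⟩
  l110 := ⟨0, 0, 0, 0⟩
  l111 := ⟨0, 0, 0, 0⟩
  l120 := ⟨0, 0, 0, 0⟩
  l200 := ⟨0, 0, 0, 0⟩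
  l201 := ⟨0, 0, 0, 0⟩
  l210 := ⟨0, 0, 0, 0⟩
  l300 := ⟨0, 0, 0, 0⟩
  l301 := ⟨0, 0, 0, 0⟩
  l310 := ⟨0, 0, 0, 0⟩
  l400 := ⟨0, 0, 0, 0⟩
  l401 := ⟨0, 0, 0, 0⟩
  l410 := ⟨0, 0, 0, 0⟩
  l500 := ⟨0, 0, 0, 0⟩
  l501 := ⟨0, 0, 0, 0⟩
  l510 := ⟨0, 0, 0, 0⟩
  l600 := ⟨0, 0, 0, 0⟩
  l700 := ⟨0, 0, 0, 0⟩
  l800 := ⟨0, 0, 0, 0⟩
  l900 := ⟨0, 0, 0, 0⟩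
  l1000 := ⟨0, 0, 0, 0⟩
  l1100 := ⟨0, 0, 0, 0⟩
  q00 := ⟨0, 0, 0, 0⟩
  q01 := ⟨0, 0, 0, 0⟩
  q02 := ⟨0, 0, 0, 0⟩
  q03 := ⟨0, 0, 0, 0⟩
  q10 := ⟨0, 0, 0, 0⟩
  q11 := ⟨0, 0, 0, 0⟩
  q12 := ⟨0, 0, 0, 0⟩
  q20 := ⟨0, 0, 0, 0⟩
  q21 := ⟨0, 0, 0, 0⟩
  q30 := ⟨0, 0, 0, 0⟩
  n000 := ⟨0, 0, 0, 0⟩
  n001 := ⟨0, 0, 0, 0⟩
  n002 := ⟨0, 0, 0, 0⟩
  n010 := ⟨0, 0, 0, 0⟩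
  n011 := ⟨0, 0, 0, 0⟩
  n020 := ⟨0, 0, 0, 0⟩
  n100 := ⟨0, 0, 0, 0⟩
  n101 := ⟨0, 0, 0, 0⟩
  n110 := ⟨0, 0, 0, 0⟩
  n200 := ⟨0, 0, 0, 0⟩
  n201 := ⟨0, 0, 0, 0⟩
  n210 := ⟨0, 0, 0, 0⟩
  n300 := ⟨0, 0, 0, 0⟩
  n400 := ⟨0, 0, 0, 0⟩
  n500 := ⟨0, 0, 0, 0⟩
  e00 := ⟨0, 0, 0, 0⟩
  e01 := ⟨0, 0, 0, 0⟩
  e02 := ⟨0, 0, 0, 0⟩
  e03 := ⟨0, 0, 0, 0⟩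
  e10 := ⟨0, 0, 0, 0⟩
  e11 := ⟨0, 0, 0, 0⟩
  B1 := 0

def p7 : Pm where
  ec := ⟨8170504192, 0, 0, 0⟩
  bc := ⟨0, 0, 0, 0⟩
  nn := ⟨8796093022208, 0, 0, 0⟩
  tj := ⟨19791209299968, 0, 0, 0⟩
  ca := ⟨329907175424, 0, 0, 0⟩
  cb := ⟨274877906944, 0, 0, 0⟩
  cc := ⟨0, 0, 0, 0⟩
  ax := ⟨0, 0, 0, 0⟩
  ay := ⟨0, 0, 0, 0⟩
  xa := ⟨0, 0, 0, 0⟩
  C2 := ⟨0, 0, 0, 0⟩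
  wr := ⟨0, 673772994560, 0, 0⟩
  wi := ⟨5872294035456, 0, 0, 0⟩
  w1 := ⟨0, 45337674776576, 0, 0⟩
  h000 := ⟨0, 1126829760, 0, 0⟩
  h001 := ⟨0, 1879272768, 0, 0⟩
  h002 := ⟨5621966656, 0, 0, 0⟩
  h003 := ⟨0, 10798009408, 0, 0⟩
  h010 := ⟨0, 923558125696, 0, 0⟩
  h011 := ⟨0, 244549059264, 0, 0⟩
  h012 := ⟨0, 0, 0, 0⟩
  h020 := ⟨89785840318144, 0, 0, 0⟩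
  h021 := ⟨0, 0, 0, 0⟩
  h030 := ⟨0, 0, 0, 0⟩
  h100 := ⟨0, 150990784, 0, 0⟩
  h101 := ⟨0, 223232320, 0, 0⟩
  h102 := ⟨603643904, 0, 0, 0⟩
  h110 := ⟨0, 138439025088, 0, 0⟩
  h111 := ⟨0, 377768951552, 0, 0⟩
  h120 := ⟨0, 0, 0, 0⟩
  h200 := ⟨0, 201227072, 0, 0⟩
  h201 := ⟨0, 52334976, 0, 0⟩
  h202 := ⟨335569600, 0, 0, 0⟩
  h210 := ⟨30412805632, 0, 0, 0⟩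
  h211 := ⟨0, 0, 0, 0⟩
  h300 := ⟨44426752, 0, 0, 0⟩
  h301 := ⟨6125568, 0, 0, 0⟩
  h310 := ⟨0, 8518710464, 0, 0⟩
  h400 := ⟨0, 922240, 0, 0⟩
  h401 := ⟨0, 2418560, 0, 0⟩
  h410 := ⟨0, 0, 0, 0⟩
  h500 := ⟨0, 526656, 0, 0⟩
  h501 := ⟨0, 0, 0, 0⟩
  h600 := ⟨171648, 0, 0, 0⟩
  h700 := ⟨0, 0, 0, 0⟩
  h800 := ⟨0, 0, 0, 0⟩
  m000 := ⟨1099640799232, 0, 0, 0⟩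
  m001 := ⟨0, 341245952, 0, 0⟩
  m002 := ⟨0, 389677056, 0, 0⟩
  m010 := ⟨182162227200, 0, 0, 0⟩
  m100 := ⟨4350410752, 0, 0, 0⟩
  m101 := ⟨148701184, 0, 0, 0⟩
  m110 := ⟨508408758272, 0, 0, 0⟩
  m200 := ⟨0, 93978624, 0, 0⟩
  m300 := ⟨14745600, 0, 0, 0⟩
  a00 := ⟨55696097280, 0, 0, 0⟩
  a01 := ⟨37809225728, 0, 0, 0⟩
  a02 := ⟨0, 248440684544, 0, 0⟩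
  a03 := ⟨32377470976, 0, 0, 0⟩
  a10 := ⟨0, 1560904138752, 0, 0⟩
  a11 := ⟨11742138728448, 0, 0, 0⟩
  b00 := ⟨51001163776, 0, 0, 0⟩
  b01 := ⟨28886958080, 0, 0, 0⟩
  b02 := ⟨0, 260805492736, 0, 0⟩
  b03 := ⟨175831711744, 0, 0, 0⟩
  b10 := ⟨0, 2229582495744, 0, 0⟩
  b11 := ⟨11165340467200, 0, 0, 0⟩
  t00 := ⟨640283967488, 0, 0, 0⟩
  t01 := ⟨107769036800, 0, 0, 0⟩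
  t02 := ⟨0, 4163699736576, 0, 0⟩
  t03 := ⟨4451028303872, 0, 0, 0⟩
  t10 := ⟨0, 9007113109504, 0, 0⟩
  t11 := ⟨97029736693760, 0, 0, 0⟩
  s00 := ⟨8723652739072, 0, 0, 0⟩
  s01 := ⟨3075035758592, 0, 0, 0⟩
  s02 := ⟨0, 37658039615488, 0, 0⟩
  s03 := ⟨5518968422400, 0, 0, 0⟩
  s10 := ⟨352008765964288, 0, 0, 0⟩
  s11 := ⟨571986893668352, 0, 0, 0⟩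
  g00 := ⟨34092929024, 0, 0, 0⟩
  g01 := ⟨0, 10677043456, 0, 0⟩
  g10 := ⟨6265420652160, 0, 0, 0⟩
  g11 := ⟨0, 0, 0, 0⟩
  f00 := ⟨8767094144, 0, 0, 0⟩
  f01 := ⟨133594236800, 0, 0, 0⟩
  f10 := ⟨22450407905792, 0, 0, 0⟩
  f11 := ⟨0, 0, 0, 0⟩
  l000 := ⟨0, 0, 0, 0⟩
  l001 := ⟨0, 0, 0, 0⟩
  l002 := ⟨0, 0, 0, 0⟩
  l010 := ⟨0, 0, 0, 0⟩
  l011 := ⟨0, 0, 0, 0⟩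
  l020 := ⟨0, 0, 0, 0⟩
  l100 := ⟨0, 0, 0, 0⟩
  l101 := ⟨0, 0, 0, 0⟩
  l102 := ⟨0, 0, 0, 0⟩
  l110 := ⟨0, 0, 0, 0⟩
  l111 := ⟨0, 0, 0, 0⟩
  l120 := ⟨0, 0, 0, 0⟩
  l200 := ⟨0, 0, 0, 0⟩
  l201 := ⟨0, 0, 0, 0⟩
  l210 := ⟨0, 0, 0, 0⟩
  l300 := ⟨0, 0, 0, 0⟩
  l301 := ⟨0, 0, 0, 0⟩
  l310 := ⟨0, 0, 0, 0⟩
  l400 := ⟨0, 0, 0, 0⟩
  l401 := ⟨0, 0, 0, 0⟩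
  l410 := ⟨0, 0, 0, 0⟩
  l500 := ⟨0, 0, 0, 0⟩
  l501 := ⟨0, 0, 0, 0⟩
  l510 := ⟨0, 0, 0, 0⟩
  l600 := ⟨0, 0, 0, 0⟩
  l700 := ⟨0, 0, 0, 0⟩
  l800 := ⟨0, 0, 0, 0⟩
  l900 := ⟨0, 0, 0, 0⟩
  l1000 := ⟨0, 0, 0, 0⟩
  l1100 := ⟨0, 0, 0, 0⟩
  q00 := ⟨0, 0, 0, 0⟩
  q01 := ⟨0, 0, 0, 0⟩
  q02 := ⟨0, 0, 0, 0⟩
  q03 := ⟨0, 0, 0, 0⟩
  q10 := ⟨0, 0, 0, 0⟩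
  q11 := ⟨0, 0, 0, 0⟩
  q12 := ⟨0, 0, 0, 0⟩
  q20 := ⟨0, 0, 0, 0⟩
  q21 := ⟨0, 0, 0, 0⟩
  q30 := ⟨0, 0, 0, 0⟩
  n000 := ⟨0, 0, 0, 0⟩
  n001 := ⟨0, 0, 0, 0⟩
  n002 := ⟨0, 0, 0, 0⟩
  n010 := ⟨0, 0, 0, 0⟩
  n011 := ⟨0, 0, 0, 0⟩
  n020 := ⟨0, 0, 0, 0⟩
  n100 := ⟨0, 0, 0, 0⟩
  n101 := ⟨0, 0, 0, 0⟩
  n110 := ⟨0, 0, 0, 0⟩
  n200 := ⟨0, 0, 0, 0⟩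
  n201 := ⟨0, 0, 0, 0⟩
  n210 := ⟨0, 0, 0, 0⟩
  n300 := ⟨0, 0, 0, 0⟩
  n400 := ⟨0, 0, 0, 0⟩
  n500 := ⟨0, 0, 0, 0⟩
  e00 := ⟨0, 0, 0, 0⟩
  e01 := ⟨0, 0, 0, 0⟩
  e02 := ⟨0, 0, 0, 0⟩
  e03 := ⟨0, 0, 0, 0⟩
  e10 := ⟨0, 0, 0, 0⟩
  e11 := ⟨0, 0, 0, 0⟩
  B1 := 0

def p8 : Pm where
  ec := ⟨8170504192, 0, 0, 0⟩
  bc := ⟨0, 0, 0, 0⟩
  nn := ⟨9895604649984, 0, 0, 0⟩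
  tj := ⟨21990232555520, 0, 0, 0⟩
  ca := ⟨274877906944, 0, 0, 0⟩
  cb := ⟨274877906944, 0, 0, 0⟩
  cc := ⟨0, 0, 0, 0⟩
  ax := ⟨0, 0, 0, 0⟩
  ay := ⟨0, 0, 0, 0⟩
  xa := ⟨0, 0, 0, 0⟩
  C2 := ⟨0, 0, 0, 0⟩
  wr := ⟨0, 673772994560, 0, 0⟩
  wi := ⟨5872294035456, 0, 0, 0⟩
  w1 := ⟨0, 45337674776576, 0, 0⟩
  h000 := ⟨0, 1126829760, 0, 0⟩
  h001 := ⟨0, 1879272768, 0, 0⟩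
  h002 := ⟨5621966656, 0, 0, 0⟩
  h003 := ⟨0, 10798009408, 0, 0⟩
  h010 := ⟨0, 923558125696, 0, 0⟩
  h011 := ⟨0, 244549059264, 0, 0⟩
  h012 := ⟨0, 0, 0, 0⟩
  h020 := ⟨89785840318144, 0, 0, 0⟩
  h021 := ⟨0, 0, 0, 0⟩
  h030 := ⟨0, 0, 0, 0⟩
  h100 := ⟨0, 150990784, 0, 0⟩
  h101 := ⟨0, 223232320, 0, 0⟩
  h102 := ⟨603643904, 0, 0, 0⟩
  h110 := ⟨0, 138439025088, 0, 0⟩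
  h111 := ⟨0, 377768951552, 0, 0⟩
  h120 := ⟨0, 0, 0, 0⟩
  h200 := ⟨0, 201227072, 0, 0⟩
  h201 := ⟨0, 52334976, 0, 0⟩
  h202 := ⟨335569600, 0, 0, 0⟩
  h210 := ⟨30412805632, 0, 0, 0⟩
  h211 := ⟨0, 0, 0, 0⟩
  h300 := ⟨44426752, 0, 0, 0⟩
  h301 := ⟨6125568, 0, 0, 0⟩
  h310 := ⟨0, 8518710464, 0, 0⟩
  h400 := ⟨0, 922240, 0, 0⟩
  h401 := ⟨0, 2418560, 0, 0⟩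
  h410 := ⟨0, 0, 0, 0⟩
  h500 := ⟨0, 526656, 0, 0⟩
  h501 := ⟨0, 0, 0, 0⟩
  h600 := ⟨171648, 0, 0, 0⟩
  h700 := ⟨0, 0, 0, 0⟩
  h800 := ⟨0, 0, 0, 0⟩
  m000 := ⟨1099800313856, 0, 0, 0⟩
  m001 := ⟨0, 303824896, 0, 0⟩
  m002 := ⟨0, 401211392, 0, 0⟩
  m010 := ⟨156654043136, 0, 0, 0⟩
  m100 := ⟨4272357376, 0, 0, 0⟩
  m101 := ⟨129105920, 0, 0, 0⟩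
  m110 := ⟨511865257984, 0, 0, 0⟩
  m200 := ⟨0, 75235328, 0, 0⟩
  m300 := ⟨12189696, 0, 0, 0⟩
  a00 := ⟨51001163776, 0, 0, 0⟩
  a01 := ⟨28886958080, 0, 0, 0⟩
  a02 := ⟨0, 260805492736, 0, 0⟩
  a03 := ⟨175831711744, 0, 0, 0⟩
  a10 := ⟨0, 2229582495744, 0, 0⟩
  a11 := ⟨11165340467200, 0, 0, 0⟩
  b00 := ⟨46695710720, 0, 0, 0⟩
  b01 := ⟨21356347392, 0, 0, 0⟩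
  b02 := ⟨0, 268648448000, 0, 0⟩
  b03 := ⟨295409745920, 0, 0, 0⟩
  b10 := ⟨0, 2777555927040, 0, 0⟩
  b11 := ⟨10726153584640, 0, 0, 0⟩
  t00 := ⟨586324770816, 0, 0, 0⟩
  t01 := ⟨56168284160, 0, 0, 0⟩
  t02 := ⟨0, 4100139778048, 0, 0⟩
  t03 := ⟨5414329122816, 0, 0, 0⟩
  t10 := ⟨0, 17506020687872, 0, 0⟩
  t11 := ⟨99002818297856, 0, 0, 0⟩
  s00 := ⟨9363936706560, 0, 0, 0⟩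
  s01 := ⟨3182804795392, 0, 0, 0⟩
  s02 := ⟨0, 41821739352064, 0, 0⟩
  s03 := ⟨9969996726272, 0, 0, 0⟩
  s10 := ⟨343001652854784, 0, 0, 0⟩
  s11 := ⟨669016630362112, 0, 0, 0⟩
  g00 := ⟨34092929024, 0, 0, 0⟩
  g01 := ⟨0, 10677043456, 0, 0⟩
  g10 := ⟨6265420652160, 0, 0, 0⟩
  g11 := ⟨0, 0, 0, 0⟩
  f00 := ⟨8767094144, 0, 0, 0⟩
  f01 := ⟨133594236800, 0, 0, 0⟩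
  f10 := ⟨22450407905792, 0, 0, 0⟩
  f11 := ⟨0, 0, 0, 0⟩
  l000 := ⟨0, 0, 0, 0⟩
  l001 := ⟨0, 0, 0, 0⟩
  l002 := ⟨0, 0, 0, 0⟩
  l010 := ⟨0, 0, 0, 0⟩
  l011 := ⟨0, 0, 0, 0⟩
  l020 := ⟨0, 0, 0, 0⟩
  l100 := ⟨0, 0, 0, 0⟩
  l101 := ⟨0, 0, 0, 0⟩
  l102 := ⟨0, 0, 0, 0⟩
  l110 := ⟨0, 0, 0, 0⟩
  l111 := ⟨0, 0, 0, 0⟩
  l120 := ⟨0, 0, 0, 0⟩
  l200 := ⟨0, 0, 0, 0⟩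
  l201 := ⟨0, 0, 0, 0⟩
  l210 := ⟨0, 0, 0, 0⟩
  l300 := ⟨0, 0, 0, 0⟩
  l301 := ⟨0, 0, 0, 0⟩
  l310 := ⟨0, 0, 0, 0⟩
  l400 := ⟨0, 0, 0, 0⟩
  l401 := ⟨0, 0, 0, 0⟩
  l410 := ⟨0, 0, 0, 0⟩
  l500 := ⟨0, 0, 0, 0⟩
  l501 := ⟨0, 0, 0, 0⟩
  l510 := ⟨0, 0, 0, 0⟩
  l600 := ⟨0, 0, 0, 0⟩
  l700 := ⟨0, 0, 0, 0⟩
  l800 := ⟨0, 0, 0, 0⟩
  l900 := ⟨0, 0, 0, 0⟩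
  l1000 := ⟨0, 0, 0, 0⟩
  l1100 := ⟨0, 0, 0, 0⟩
  q00 := ⟨0, 0, 0, 0⟩
  q01 := ⟨0, 0, 0, 0⟩
  q02 := ⟨0, 0, 0, 0⟩
  q03 := ⟨0, 0, 0, 0⟩
  q10 := ⟨0, 0, 0, 0⟩
  q11 := ⟨0, 0, 0, 0⟩
  q12 := ⟨0, 0, 0, 0⟩
  q20 := ⟨0, 0, 0, 0⟩
  q21 := ⟨0, 0, 0, 0⟩
  q30 := ⟨0, 0, 0, 0⟩
  n000 := ⟨0, 0, 0, 0⟩
  n001 := ⟨0, 0, 0, 0⟩
  n002 := ⟨0, 0, 0, 0⟩
  n010 := ⟨0, 0, 0, 0⟩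
  n011 := ⟨0, 0, 0, 0⟩
  n020 := ⟨0, 0, 0, 0⟩
  n100 := ⟨0, 0, 0, 0⟩
  n101 := ⟨0, 0, 0, 0⟩
  n110 := ⟨0, 0, 0, 0⟩
  n200 := ⟨0, 0, 0, 0⟩
  n201 := ⟨0, 0, 0, 0⟩
  n210 := ⟨0, 0, 0, 0⟩
  n300 := ⟨0, 0, 0, 0⟩
  n400 := ⟨0, 0, 0, 0⟩
  n500 := ⟨0, 0, 0, 0⟩
  e00 := ⟨0, 0, 0, 0⟩
  e01 := ⟨0, 0, 0, 0⟩
  e02 := ⟨0, 0, 0, 0⟩
  e03 := ⟨0, 0, 0, 0⟩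
  e10 := ⟨0, 0, 0, 0⟩
  e11 := ⟨0, 0, 0, 0⟩
  B1 := 0

def p9 : Pm where
  ec := ⟨8170504192, 0, 0, 0⟩
  bc := ⟨0, 0, 0, 0⟩
  nn := ⟨10995116277760, 0, 0, 0⟩
  tj := ⟨24189255811072, 0, 0, 0⟩
  ca := ⟨274877906944, 0, 0, 0⟩
  cb := ⟨274877906944, 0, 0, 0⟩
  cc := ⟨0, 0, 0, 0⟩
  ax := ⟨0, 0, 0, 0⟩
  ay := ⟨0, 0, 0, 0⟩
  xa := ⟨0, 0, 0, 0⟩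
  C2 := ⟨0, 0, 0, 0⟩
  wr := ⟨0, 673772994560, 0, 0⟩
  wi := ⟨5872294035456, 0, 0, 0⟩
  w1 := ⟨0, 45337674776576, 0, 0⟩
  h000 := ⟨0, 1126829760, 0, 0⟩
  h001 := ⟨0, 1879272768, 0, 0⟩
  h002 := ⟨5621966656, 0, 0, 0⟩
  h003 := ⟨0, 10798009408, 0, 0⟩
  h010 := ⟨0, 923558125696, 0, 0⟩
  h011 := ⟨0, 244549059264, 0, 0⟩
  h012 := ⟨0, 0, 0, 0⟩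
  h020 := ⟨89785840318144, 0, 0, 0⟩
  h021 := ⟨0, 0, 0, 0⟩
  h030 := ⟨0, 0, 0, 0⟩
  h100 := ⟨0, 150990784, 0, 0⟩
  h101 := ⟨0, 223232320, 0, 0⟩
  h102 := ⟨603643904, 0, 0, 0⟩
  h110 := ⟨0, 138439025088, 0, 0⟩
  h111 := ⟨0, 377768951552, 0, 0⟩
  h120 := ⟨0, 0, 0, 0⟩
  h200 := ⟨0, 201227072, 0, 0⟩
  h201 := ⟨0, 52334976, 0, 0⟩
  h202 := ⟨335569600, 0, 0, 0⟩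
  h210 := ⟨30412805632, 0, 0, 0⟩
  h211 := ⟨0, 0, 0, 0⟩
  h300 := ⟨44426752, 0, 0, 0⟩
  h301 := ⟨6125568, 0, 0, 0⟩
  h310 := ⟨0, 8518710464, 0, 0⟩
  h400 := ⟨0, 922240, 0, 0⟩
  h401 := ⟨0, 2418560, 0, 0⟩
  h410 := ⟨0, 0, 0, 0⟩
  h500 := ⟨0, 526656, 0, 0⟩
  h501 := ⟨0, 0, 0, 0⟩
  h600 := ⟨171648, 0, 0, 0⟩
  h700 := ⟨0, 0, 0, 0⟩
  h800 := ⟨0, 0, 0, 0⟩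
  m000 := ⟨1099946262528, 0, 0, 0⟩
  m001 := ⟨0, 446496768, 0, 0⟩
  m002 := ⟨327942144, 0, 0, 0⟩
  m010 := ⟨139186667520, 0, 0, 0⟩
  m100 := ⟨4197515264, 0, 0, 0⟩
  m101 := ⟨125698048, 0, 0, 0⟩
  m110 := ⟨514163867648, 0, 0, 0⟩
  m200 := ⟨0, 57999360, 0, 0⟩
  m300 := ⟨9961472, 0, 0, 0⟩
  a00 := ⟨46695710720, 0, 0, 0⟩
  a01 := ⟨21356347392, 0, 0, 0⟩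
  a02 := ⟨0, 268648448000, 0, 0⟩
  a03 := ⟨295409745920, 0, 0, 0⟩
  a10 := ⟨0, 2777555927040, 0, 0⟩
  a11 := ⟨10726153584640, 0, 0, 0⟩
  b00 := ⟨42747297792, 0, 0, 0⟩
  b01 := ⟨15065415680, 0, 0, 0⟩
  b02 := ⟨0, 273810259968, 0, 0⟩
  b03 := ⟨396682788864, 0, 0, 0⟩
  b10 := ⟨0, 3219401539584, 0, 0⟩
  b11 := ⟨10369261699072, 0, 0, 0⟩
  t00 := ⟨536815009792, 0, 0, 0⟩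
  t01 := ⟨0, 13603045376, 0, 0⟩
  t02 := ⟨0, 4046188314624, 0, 0⟩
  t03 := ⟨6493916954624, 0, 0, 0⟩
  t10 := ⟨0, 24537480626176, 0, 0⟩
  t11 := ⟨101517818855424, 0, 0, 0⟩
  s00 := ⟨9950261477376, 0, 0, 0⟩
  s01 := ⟨3238973079552, 0, 0, 0⟩
  s02 := ⟨0, 45921879130112, 0, 0⟩
  s03 := ⟨15384325849088, 0, 0, 0⟩
  s10 := ⟨325495632166912, 0, 0, 0⟩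
  s11 := ⟨768019448659968, 0, 0, 0⟩
  g00 := ⟨34092929024, 0, 0, 0⟩
  g01 := ⟨0, 10677043456, 0, 0⟩
  g10 := ⟨6265420652160, 0, 0, 0⟩
  g11 := ⟨0, 0, 0, 0⟩
  f00 := ⟨8767094144, 0, 0, 0⟩
  f01 := ⟨133594236800, 0, 0, 0⟩
  f10 := ⟨22450407905792, 0, 0, 0⟩
  f11 := ⟨0, 0, 0, 0⟩
  l000 := ⟨0, 0, 0, 0⟩
  l001 := ⟨0, 0, 0, 0⟩
  l002 := ⟨0, 0, 0, 0⟩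
  l010 := ⟨0, 0, 0, 0⟩
  l011 := ⟨0, 0, 0, 0⟩
  l020 := ⟨0, 0, 0, 0⟩
  l100 := ⟨0, 0, 0, 0⟩
  l101 := ⟨0, 0, 0, 0⟩
  l102 := ⟨0, 0, 0, 0⟩
  l110 := ⟨0, 0, 0, 0⟩
  l111 := ⟨0, 0, 0, 0⟩
  l120 := ⟨0, 0, 0, 0⟩
  l200 := ⟨0, 0, 0, 0⟩
  l201 := ⟨0, 0, 0, 0⟩
  l210 := ⟨0, 0, 0, 0⟩
  l300 := ⟨0, 0, 0, 0⟩
  l301 := ⟨0, 0, 0, 0⟩
  l310 := ⟨0, 0, 0, 0⟩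
  l400 := ⟨0, 0, 0, 0⟩
  l401 := ⟨0, 0, 0, 0⟩
  l410 := ⟨0, 0, 0, 0⟩
  l500 := ⟨0, 0, 0, 0⟩
  l501 := ⟨0, 0, 0, 0⟩
  l510 := ⟨0, 0, 0, 0⟩
  l600 := ⟨0, 0, 0, 0⟩
  l700 := ⟨0, 0, 0, 0⟩
  l800 := ⟨0, 0, 0, 0⟩
  l900 := ⟨0, 0, 0, 0⟩
  l1000 := ⟨0, 0, 0, 0⟩
  l1100 := ⟨0, 0, 0, 0⟩
  q00 := ⟨0, 0, 0, 0⟩
  q01 := ⟨0, 0, 0, 0⟩
  q02 := ⟨0, 0, 0, 0⟩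
  q03 := ⟨0, 0, 0, 0⟩
  q10 := ⟨0, 0, 0, 0⟩
  q11 := ⟨0, 0, 0, 0⟩
  q12 := ⟨0, 0, 0, 0⟩
  q20 := ⟨0, 0, 0, 0⟩
  q21 := ⟨0, 0, 0, 0⟩
  q30 := ⟨0, 0, 0, 0⟩
  n000 := ⟨0, 0, 0, 0⟩
  n001 := ⟨0, 0, 0, 0⟩
  n002 := ⟨0, 0, 0, 0⟩
  n010 := ⟨0, 0, 0, 0⟩
  n011 := ⟨0, 0, 0, 0⟩
  n020 := ⟨0, 0, 0, 0⟩
  n100 := ⟨0, 0, 0, 0⟩
  n101 := ⟨0, 0, 0, 0⟩
  n110 := ⟨0, 0, 0, 0⟩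
  n200 := ⟨0, 0, 0, 0⟩
  n201 := ⟨0, 0, 0, 0⟩
  n210 := ⟨0, 0, 0, 0⟩
  n300 := ⟨0, 0, 0, 0⟩
  n400 := ⟨0, 0, 0, 0⟩
  n500 := ⟨0, 0, 0, 0⟩
  e00 := ⟨0, 0, 0, 0⟩
  e01 := ⟨0, 0, 0, 0⟩
  e02 := ⟨0, 0, 0, 0⟩
  e03 := ⟨0, 0, 0, 0⟩
  e10 := ⟨0, 0, 0, 0⟩
  e11 := ⟨0, 0, 0, 0⟩
  B1 := 0

def p10 : Pm where
  ec := ⟨8170504192, 0, 0, 0⟩
  bc := ⟨0, 0, 0, 0⟩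
  nn := ⟨12094627905536, 0, 0, 0⟩
  tj := ⟨26388279066624, 0, 0, 0⟩
  ca := ⟨274877906944, 0, 0, 0⟩
  cb := ⟨274877906944, 0, 0, 0⟩
  cc := ⟨0, 0, 0, 0⟩
  ax := ⟨0, 0, 0, 0⟩
  ay := ⟨0, 0, 0, 0⟩
  xa := ⟨0, 0, 0, 0⟩
  C2 := ⟨0, 0, 0, 0⟩
  wr := ⟨0, 673772994560, 0, 0⟩
  wi := ⟨5872294035456, 0, 0, 0⟩
  w1 := ⟨0, 45337674776576, 0, 0⟩
  h000 := ⟨0, 1126829760, 0, 0⟩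
  h001 := ⟨0, 1879272768, 0, 0⟩
  h002 := ⟨5621966656, 0, 0, 0⟩
  h003 := ⟨0, 10798009408, 0, 0⟩
  h010 := ⟨0, 923558125696, 0, 0⟩
  h011 := ⟨0, 244549059264, 0, 0⟩
  h012 := ⟨0, 0, 0, 0⟩
  h020 := ⟨89785840318144, 0, 0, 0⟩
  h021 := ⟨0, 0, 0, 0⟩
  h030 := ⟨0, 0, 0, 0⟩
  h100 := ⟨0, 150990784, 0, 0⟩
  h101 := ⟨0, 223232320, 0, 0⟩
  h102 := ⟨603643904, 0, 0, 0⟩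
  h110 := ⟨0, 138439025088, 0, 0⟩
  h111 := ⟨0, 377768951552, 0, 0⟩
  h120 := ⟨0, 0, 0, 0⟩
  h200 := ⟨0, 201227072, 0, 0⟩
  h201 := ⟨0, 52334976, 0, 0⟩
  h202 := ⟨335569600, 0, 0, 0⟩
  h210 := ⟨30412805632, 0, 0, 0⟩
  h211 := ⟨0, 0, 0, 0⟩
  h300 := ⟨44426752, 0, 0, 0⟩
  h301 := ⟨6125568, 0, 0, 0⟩
  h310 := ⟨0, 8518710464, 0, 0⟩
  h400 := ⟨0, 922240, 0, 0⟩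
  h401 := ⟨0, 2418560, 0, 0⟩
  h410 := ⟨0, 0, 0, 0⟩
  h500 := ⟨0, 526656, 0, 0⟩
  h501 := ⟨0, 0, 0, 0⟩
  h600 := ⟨171648, 0, 0, 0⟩
  h700 := ⟨0, 0, 0, 0⟩
  h800 := ⟨0, 0, 0, 0⟩
  m000 := ⟨1100047777792, 0, 0, 0⟩
  m001 := ⟨0, 250675200, 0, 0⟩
  m002 := ⟨0, 200998912, 0, 0⟩
  m010 := ⟨119669391360, 0, 0, 0⟩
  m100 := ⟨4135059456, 0, 0, 0⟩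
  m101 := ⟨103612416, 0, 0, 0⟩
  m110 := ⟨521950527488, 0, 0, 0⟩
  m200 := ⟨0, 42860544, 0, 0⟩
  m300 := ⟨7864320, 0, 0, 0⟩
  a00 := ⟨42747297792, 0, 0, 0⟩
  a01 := ⟨15065415680, 0, 0, 0⟩
  a02 := ⟨0, 273810259968, 0, 0⟩
  a03 := ⟨396682788864, 0, 0, 0⟩
  a10 := ⟨0, 3219401539584, 0, 0⟩
  a11 := ⟨10369261699072, 0, 0, 0⟩
  b00 := ⟨39126433792, 0, 0, 0⟩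
  b01 := ⟨9771745280, 0, 0, 0⟩
  b02 := ⟨0, 274389729280, 0, 0⟩
  b03 := ⟨473821741056, 0, 0, 0⟩
  b10 := ⟨0, 3568551591936, 0, 0⟩
  b11 := ⟨10059333500928, 0, 0, 0⟩
  t00 := ⟨491398758400, 0, 0, 0⟩
  t01 := ⟨0, 71417462784, 0, 0⟩
  t02 := ⟨0, 3906025816064, 0, 0⟩
  t03 := ⟨7131536031744, 0, 0, 0⟩
  t10 := ⟨0, 30258531860480, 0, 0⟩
  t11 := ⟨103618608758784, 0, 0, 0⟩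
  s00 := ⟨10487076487168, 0, 0, 0⟩
  s01 := ⟨3225370034176, 0, 0, 0⟩
  s02 := ⟨0, 49968067444736, 0, 0⟩
  s03 := ⟨21878242803712, 0, 0, 0⟩
  s10 := ⟨300958151540736, 0, 0, 0⟩
  s11 := ⟨869537267515392, 0, 0, 0⟩
  g00 := ⟨34092929024, 0, 0, 0⟩
  g01 := ⟨0, 10677043456, 0, 0⟩
  g10 := ⟨6265420652160, 0, 0, 0⟩
  g11 := ⟨0, 0, 0, 0⟩
  f00 := ⟨8767094144, 0, 0, 0⟩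
  f01 := ⟨133594236800, 0, 0, 0⟩
  f10 := ⟨22450407905792, 0, 0, 0⟩
  f11 := ⟨0, 0, 0, 0⟩
  l000 := ⟨0, 0, 0, 0⟩
  l001 := ⟨0, 0, 0, 0⟩
  l002 := ⟨0, 0, 0, 0⟩
  l010 := ⟨0, 0, 0, 0⟩
  l011 := ⟨0, 0, 0, 0⟩
  l020 := ⟨0, 0, 0, 0⟩
  l100 := ⟨0, 0, 0, 0⟩
  l101 := ⟨0, 0, 0, 0⟩
  l102 := ⟨0, 0, 0, 0⟩
  l110 := ⟨0, 0, 0, 0⟩
  l111 := ⟨0, 0, 0, 0⟩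
  l120 := ⟨0, 0, 0, 0⟩
  l200 := ⟨0, 0, 0, 0⟩
  l201 := ⟨0, 0, 0, 0⟩
  l210 := ⟨0, 0, 0, 0⟩
  l300 := ⟨0, 0, 0, 0⟩
  l301 := ⟨0, 0, 0, 0⟩
  l310 := ⟨0, 0, 0, 0⟩
  l400 := ⟨0, 0, 0, 0⟩
  l401 := ⟨0, 0, 0, 0⟩
  l410 := ⟨0, 0, 0, 0⟩
  l500 := ⟨0, 0, 0, 0⟩
  l501 := ⟨0, 0, 0, 0⟩
  l510 := ⟨0, 0, 0, 0⟩
  l600 := ⟨0, 0, 0, 0⟩
  l700 := ⟨0, 0, 0, 0⟩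
  l800 := ⟨0, 0, 0, 0⟩
  l900 := ⟨0, 0, 0, 0⟩
  l1000 := ⟨0, 0, 0, 0⟩
  l1100 := ⟨0, 0, 0, 0⟩
  q00 := ⟨0, 0, 0, 0⟩
  q01 := ⟨0, 0, 0, 0⟩
  q02 := ⟨0, 0, 0, 0⟩
  q03 := ⟨0, 0, 0, 0⟩
  q10 := ⟨0, 0, 0, 0⟩
  q11 := ⟨0, 0, 0, 0⟩
  q12 := ⟨0, 0, 0, 0⟩
  q20 := ⟨0, 0, 0, 0⟩
  q21 := ⟨0, 0, 0, 0⟩
  q30 := ⟨0, 0, 0, 0⟩
  n000 := ⟨0, 0, 0, 0⟩
  n001 := ⟨0, 0, 0, 0⟩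
  n002 := ⟨0, 0, 0, 0⟩
  n010 := ⟨0, 0, 0, 0⟩
  n011 := ⟨0, 0, 0, 0⟩
  n020 := ⟨0, 0, 0, 0⟩
  n100 := ⟨0, 0, 0, 0⟩
  n101 := ⟨0, 0, 0, 0⟩
  n110 := ⟨0, 0, 0, 0⟩
  n200 := ⟨0, 0, 0, 0⟩
  n201 := ⟨0, 0, 0, 0⟩
  n210 := ⟨0, 0, 0, 0⟩
  n300 := ⟨0, 0, 0, 0⟩
  n400 := ⟨0, 0, 0, 0⟩
  n500 := ⟨0, 0, 0, 0⟩
  e00 := ⟨0, 0, 0, 0⟩
  e01 := ⟨0, 0, 0, 0⟩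
  e02 := ⟨0, 0, 0, 0⟩
  e03 := ⟨0, 0, 0, 0⟩
  e10 := ⟨0, 0, 0, 0⟩
  e11 := ⟨0, 0, 0, 0⟩
  B1 := 0

def p11 : Pm where
  ec := ⟨8170504192, 0, 0, 0⟩
  bc := ⟨0, 0, 0, 0⟩
  nn := ⟨13194139533312, 0, 0, 0⟩
  tj := ⟨28587302322176, 0, 0, 0⟩
  ca := ⟨274877906944, 0, 0, 0⟩
  cb := ⟨274877906944, 0, 0, 0⟩
  cc := ⟨0, 0, 0, 0⟩
  ax := ⟨0, 0, 0, 0⟩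
  ay := ⟨0, 0, 0, 0⟩
  xa := ⟨0, 0, 0, 0⟩
  C2 := ⟨0, 0, 0, 0⟩
  wr := ⟨0, 673772994560, 0, 0⟩
  wi := ⟨5872294035456, 0, 0, 0⟩
  w1 := ⟨0, 45337674776576, 0, 0⟩
  h000 := ⟨0, 1126829760, 0, 0⟩
  h001 := ⟨0, 1879272768, 0, 0⟩
  h002 := ⟨5621966656, 0, 0, 0⟩
  h003 := ⟨0, 10798009408, 0, 0⟩
  h010 := ⟨0, 923558125696, 0, 0⟩
  h011 := ⟨0, 244549059264, 0, 0⟩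
  h012 := ⟨0, 0, 0, 0⟩
  h020 := ⟨89785840318144, 0, 0, 0⟩
  h021 := ⟨0, 0, 0, 0⟩
  h030 := ⟨0, 0, 0, 0⟩
  h100 := ⟨0, 150990784, 0, 0⟩
  h101 := ⟨0, 223232320, 0, 0⟩
  h102 := ⟨603643904, 0, 0, 0⟩
  h110 := ⟨0, 138439025088, 0, 0⟩
  h111 := ⟨0, 377768951552, 0, 0⟩
  h120 := ⟨0, 0, 0, 0⟩
  h200 := ⟨0, 201227072, 0, 0⟩
  h201 := ⟨0, 52334976, 0, 0⟩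
  h202 := ⟨335569600, 0, 0, 0⟩
  h210 := ⟨30412805632, 0, 0, 0⟩
  h211 := ⟨0, 0, 0, 0⟩
  h300 := ⟨44426752, 0, 0, 0⟩
  h301 := ⟨6125568, 0, 0, 0⟩
  h310 := ⟨0, 8518710464, 0, 0⟩
  h400 := ⟨0, 922240, 0, 0⟩
  h401 := ⟨0, 2418560, 0, 0⟩
  h410 := ⟨0, 0, 0, 0⟩
  h500 := ⟨0, 526656, 0, 0⟩
  h501 := ⟨0, 0, 0, 0⟩
  h600 := ⟨171648, 0, 0, 0⟩
  h700 := ⟨0, 0, 0, 0⟩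
  h800 := ⟨0, 0, 0, 0⟩
  m000 := ⟨1100143001600, 0, 0, 0⟩
  m001 := ⟨0, 452198400, 0, 0⟩
  m002 := ⟨1015218176, 0, 0, 0⟩
  m010 := ⟨111030108160, 0, 0, 0⟩
  m100 := ⟨4077649920, 0, 0, 0⟩
  m101 := ⟨92602368, 0, 0, 0⟩
  m110 := ⟨525260488704, 0, 0, 0⟩
  m200 := ⟨0, 29360128, 0, 0⟩
  m300 := ⟨6160384, 0, 0, 0⟩
  a00 := ⟨39126433792, 0, 0, 0⟩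
  a01 := ⟨9771745280, 0, 0, 0⟩
  a02 := ⟨0, 274389729280, 0, 0⟩
  a03 := ⟨473821741056, 0, 0, 0⟩
  a10 := ⟨0, 3568551591936, 0, 0⟩
  a11 := ⟨10059333500928, 0, 0, 0⟩
  b00 := ⟨35806117888, 0, 0, 0⟩
  b01 := ⟨4943249408, 0, 0, 0⟩
  b02 := ⟨0, 258758737920, 0, 0⟩
  b03 := ⟨487924957184, 0, 0, 0⟩
  b10 := ⟨0, 3837270294528, 0, 0⟩
  b11 := ⟨9775527624704, 0, 0, 0⟩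
  t00 := ⟨449781432320, 0, 0, 0⟩
  t01 := ⟨0, 119014752256, 0, 0⟩
  t02 := ⟨0, 3730331074560, 0, 0⟩
  t03 := ⟨7532108906496, 0, 0, 0⟩
  t10 := ⟨0, 34850069610496, 0, 0⟩
  t11 := ⟨105426618679296, 0, 0, 0⟩
  s00 := ⟨10978475245568, 0, 0, 0⟩
  s01 := ⟨3153952571392, 0, 0, 0⟩
  s02 := ⟨0, 53874093260800, 0, 0⟩
  s03 := ⟨29009778835456, 0, 0, 0⟩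
  s10 := ⟨270699619680256, 0, 0, 0⟩
  s11 := ⟨973155876274176, 0, 0, 0⟩
  g00 := ⟨34092929024, 0, 0, 0⟩
  g01 := ⟨0, 10677043456, 0, 0⟩
  g10 := ⟨6265420652160, 0, 0, 0⟩
  g11 := ⟨0, 0, 0, 0⟩
  f00 := ⟨8767094144, 0, 0, 0⟩
  f01 := ⟨133594236800, 0, 0, 0⟩
  f10 := ⟨22450407905792, 0, 0, 0⟩
  f11 := ⟨0, 0, 0, 0⟩
  l000 := ⟨0, 0, 0, 0⟩
  l001 := ⟨0, 0, 0, 0⟩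
  l002 := ⟨0, 0, 0, 0⟩
  l010 := ⟨0, 0, 0, 0⟩
  l011 := ⟨0, 0, 0, 0⟩
  l020 := ⟨0, 0, 0, 0⟩
  l100 := ⟨0, 0, 0, 0⟩
  l101 := ⟨0, 0, 0, 0⟩
  l102 := ⟨0, 0, 0, 0⟩
  l110 := ⟨0, 0, 0, 0⟩
  l111 := ⟨0, 0, 0, 0⟩
  l120 := ⟨0, 0, 0, 0⟩
  l200 := ⟨0, 0, 0, 0⟩
  l201 := ⟨0, 0, 0, 0⟩
  l210 := ⟨0, 0, 0, 0⟩
  l300 := ⟨0, 0, 0, 0⟩
  l301 := ⟨0, 0, 0, 0⟩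
  l310 := ⟨0, 0, 0, 0⟩
  l400 := ⟨0, 0, 0, 0⟩
  l401 := ⟨0, 0, 0, 0⟩
  l410 := ⟨0, 0, 0, 0⟩
  l500 := ⟨0, 0, 0, 0⟩
  l501 := ⟨0, 0, 0, 0⟩
  l510 := ⟨0, 0, 0, 0⟩
  l600 := ⟨0, 0, 0, 0⟩
  l700 := ⟨0, 0, 0, 0⟩
  l800 := ⟨0, 0, 0, 0⟩
  l900 := ⟨0, 0, 0, 0⟩
  l1000 := ⟨0, 0, 0, 0⟩
  l1100 := ⟨0, 0, 0, 0⟩
  q00 := ⟨0, 0, 0, 0⟩
  q01 := ⟨0, 0, 0, 0⟩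
  q02 := ⟨0, 0, 0, 0⟩
  q03 := ⟨0, 0, 0, 0⟩
  q10 := ⟨0, 0, 0, 0⟩
  q11 := ⟨0, 0, 0, 0⟩
  q12 := ⟨0, 0, 0, 0⟩
  q20 := ⟨0, 0, 0, 0⟩
  q21 := ⟨0, 0, 0, 0⟩
  q30 := ⟨0, 0, 0, 0⟩
  n000 := ⟨0, 0, 0, 0⟩
  n001 := ⟨0, 0, 0, 0⟩
  n002 := ⟨0, 0, 0, 0⟩
  n010 := ⟨0, 0, 0, 0⟩
  n011 := ⟨0, 0, 0, 0⟩
  n020 := ⟨0, 0, 0, 0⟩
  n100 := ⟨0, 0, 0, 0⟩
  n101 := ⟨0, 0, 0, 0⟩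
  n110 := ⟨0, 0, 0, 0⟩
  n200 := ⟨0, 0, 0, 0⟩
  n201 := ⟨0, 0, 0, 0⟩
  n210 := ⟨0, 0, 0, 0⟩
  n300 := ⟨0, 0, 0, 0⟩
  n400 := ⟨0, 0, 0, 0⟩
  n500 := ⟨0, 0, 0, 0⟩
  e00 := ⟨0, 0, 0, 0⟩
  e01 := ⟨0, 0, 0, 0⟩
  e02 := ⟨0, 0, 0, 0⟩
  e03 := ⟨0, 0, 0, 0⟩
  e10 := ⟨0, 0, 0, 0⟩
  e11 := ⟨0, 0, 0, 0⟩
  B1 := 0

def p12 : Pm where
  ec := ⟨8170504192, 0, 0, 0⟩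
  bc := ⟨0, 0, 0, 0⟩
  nn := ⟨14293651161088, 0, 0, 0⟩
  tj := ⟨30786325577728, 0, 0, 0⟩
  ca := ⟨274877906944, 0, 0, 0⟩
  cb := ⟨0, 0, 0, 0⟩
  cc := ⟨0, 0, 0, 0⟩
  ax := ⟨0, 0, 0, 0⟩
  ay := ⟨274877906944, 0, 0, 0⟩
  xa := ⟨9125946720256, 0, 0, 0⟩
  C2 := ⟨1397026407424, 0, 0, 0⟩
  wr := ⟨0, 673772994560, 0, 0⟩
  wi := ⟨5872294035456, 0, 0, 0⟩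
  w1 := ⟨0, 45337674776576, 0, 0⟩
  h000 := ⟨0, 1126829760, 0, 0⟩
  h001 := ⟨0, 1879272768, 0, 0⟩
  h002 := ⟨5621966656, 0, 0, 0⟩
  h003 := ⟨0, 10798009408, 0, 0⟩
  h010 := ⟨0, 923558125696, 0, 0⟩
  h011 := ⟨0, 244549059264, 0, 0⟩
  h012 := ⟨0, 0, 0, 0⟩
  h020 := ⟨89785840318144, 0, 0, 0⟩
  h021 := ⟨0, 0, 0, 0⟩
  h030 := ⟨0, 0, 0, 0⟩
  h100 := ⟨0, 150990784, 0, 0⟩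
  h101 := ⟨0, 223232320, 0, 0⟩
  h102 := ⟨603643904, 0, 0, 0⟩
  h110 := ⟨0, 138439025088, 0, 0⟩
  h111 := ⟨0, 377768951552, 0, 0⟩
  h120 := ⟨0, 0, 0, 0⟩
  h200 := ⟨0, 201227072, 0, 0⟩
  h201 := ⟨0, 52334976, 0, 0⟩
  h202 := ⟨335569600, 0, 0, 0⟩
  h210 := ⟨30412805632, 0, 0, 0⟩
  h211 := ⟨0, 0, 0, 0⟩
  h300 := ⟨44426752, 0, 0, 0⟩
  h301 := ⟨6125568, 0, 0, 0⟩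
  h310 := ⟨0, 8518710464, 0, 0⟩
  h400 := ⟨0, 922240, 0, 0⟩
  h401 := ⟨0, 2418560, 0, 0⟩
  h410 := ⟨0, 0, 0, 0⟩
  h500 := ⟨0, 526656, 0, 0⟩
  h501 := ⟨0, 0, 0, 0⟩
  h600 := ⟨171648, 0, 0, 0⟩
  h700 := ⟨0, 0, 0, 0⟩
  h800 := ⟨0, 0, 0, 0⟩
  m000 := ⟨1099987156992, 0, 0, 0⟩
  m001 := ⟨668336128, 0, 0, 0⟩
  m002 := ⟨0, 2340290560, 0, 0⟩
  m010 := ⟨54560882688, 0, 0, 0⟩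
  m100 := ⟨4023255040, 0, 0, 0⟩
  m101 := ⟨27787264, 0, 0, 0⟩
  m110 := ⟨543067734016, 0, 0, 0⟩
  m200 := ⟨0, 5570560, 0, 0⟩
  m300 := ⟨2162688, 0, 0, 0⟩
  a00 := ⟨35806117888, 0, 0, 0⟩
  a01 := ⟨4943249408, 0, 0, 0⟩
  a02 := ⟨0, 258758737920, 0, 0⟩
  a03 := ⟨487924957184, 0, 0, 0⟩
  a10 := ⟨0, 3837270294528, 0, 0⟩
  a11 := ⟨9775527624704, 0, 0, 0⟩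
  b00 := ⟨0, 0, 0, 0⟩
  b01 := ⟨0, 0, 0, 0⟩
  b02 := ⟨0, 0, 0, 0⟩
  b03 := ⟨0, 0, 0, 0⟩
  b10 := ⟨0, 0, 0, 0⟩
  b11 := ⟨0, 0, 0, 0⟩
  t00 := ⟨411628929024, 0, 0, 0⟩
  t01 := ⟨0, 161420279808, 0, 0⟩
  t02 := ⟨0, 3400934227968, 0, 0⟩
  t03 := ⟨7295856017408, 0, 0, 0⟩
  t10 := ⟨0, 38460576432128, 0, 0⟩
  t11 := ⟨106796957040640, 0, 0, 0⟩
  s00 := ⟨11428256677888, 0, 0, 0⟩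
  s01 := ⟨3034937819136, 0, 0, 0⟩
  s02 := ⟨0, 57604424335360, 0, 0⟩
  s03 := ⟨36541887741952, 0, 0, 0⟩
  s10 := ⟨235849550069760, 0, 0, 0⟩
  s11 := ⟨1078582494953472, 0, 0, 0⟩
  g00 := ⟨34092929024, 0, 0, 0⟩
  g01 := ⟨0, 10677043456, 0, 0⟩
  g10 := ⟨6265420652160, 0, 0, 0⟩
  g11 := ⟨0, 0, 0, 0⟩
  f00 := ⟨8767094144, 0, 0, 0⟩
  f01 := ⟨133594236800, 0, 0, 0⟩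
  f10 := ⟨22450407905792, 0, 0, 0⟩
  f11 := ⟨0, 0, 0, 0⟩
  l000 := ⟨0, 0, 0, 0⟩
  l001 := ⟨0, 0, 0, 0⟩
  l002 := ⟨0, 0, 0, 0⟩
  l010 := ⟨0, 0, 0, 0⟩
  l011 := ⟨0, 0, 0, 0⟩
  l020 := ⟨0, 0, 0, 0⟩
  l100 := ⟨0, 0, 0, 0⟩
  l101 := ⟨0, 0, 0, 0⟩
  l102 := ⟨0, 0, 0, 0⟩
  l110 := ⟨0, 0, 0, 0⟩
  l111 := ⟨0, 0, 0, 0⟩
  l120 := ⟨0, 0, 0, 0⟩
  l200 := ⟨0, 0, 0, 0⟩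
  l201 := ⟨0, 0, 0, 0⟩
  l210 := ⟨0, 0, 0, 0⟩
  l300 := ⟨0, 0, 0, 0⟩
  l301 := ⟨0, 0, 0, 0⟩
  l310 := ⟨0, 0, 0, 0⟩
  l400 := ⟨0, 0, 0, 0⟩
  l401 := ⟨0, 0, 0, 0⟩
  l410 := ⟨0, 0, 0, 0⟩
  l500 := ⟨0, 0, 0, 0⟩
  l501 := ⟨0, 0, 0, 0⟩
  l510 := ⟨0, 0, 0, 0⟩
  l600 := ⟨0, 0, 0, 0⟩
  l700 := ⟨0, 0, 0, 0⟩
  l800 := ⟨0, 0, 0, 0⟩
  l900 := ⟨0, 0, 0, 0⟩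
  l1000 := ⟨0, 0, 0, 0⟩
  l1100 := ⟨0, 0, 0, 0⟩
  q00 := ⟨0, 0, 0, 0⟩
  q01 := ⟨0, 0, 0, 0⟩
  q02 := ⟨0, 0, 0, 0⟩
  q03 := ⟨0, 0, 0, 0⟩
  q10 := ⟨0, 0, 0, 0⟩
  q11 := ⟨0, 0, 0, 0⟩
  q12 := ⟨0, 0, 0, 0⟩
  q20 := ⟨0, 0, 0, 0⟩
  q21 := ⟨0, 0, 0, 0⟩
  q30 := ⟨0, 0, 0, 0⟩
  n000 := ⟨0, 0, 0, 0⟩
  n001 := ⟨0, 0, 0, 0⟩
  n002 := ⟨0, 0, 0, 0⟩
  n010 := ⟨0, 0, 0, 0⟩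
  n011 := ⟨0, 0, 0, 0⟩
  n020 := ⟨0, 0, 0, 0⟩
  n100 := ⟨0, 0, 0, 0⟩
  n101 := ⟨0, 0, 0, 0⟩
  n110 := ⟨0, 0, 0, 0⟩
  n200 := ⟨0, 0, 0, 0⟩
  n201 := ⟨0, 0, 0, 0⟩
  n210 := ⟨0, 0, 0, 0⟩
  n300 := ⟨0, 0, 0, 0⟩
  n400 := ⟨0, 0, 0, 0⟩
  n500 := ⟨0, 0, 0, 0⟩
  e00 := ⟨0, 0, 0, 0⟩
  e01 := ⟨0, 0, 0, 0⟩
  e02 := ⟨0, 0, 0, 0⟩
  e03 := ⟨0, 0, 0, 0⟩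
  e10 := ⟨0, 0, 0, 0⟩
  e11 := ⟨0, 0, 0, 0⟩
  B1 := 1979120091136

def pF : Pm where
  ec := ⟨8170504192, 0, 0, 0⟩
  bc := ⟨0, 0, 0, 0⟩
  nn := ⟨0, 0, 0, 0⟩
  tj := ⟨2199023255552, 0, 0, 0⟩
  ca := ⟨1099511627776, 0, 0, 0⟩
  cb := ⟨0, 0, 0, 0⟩
  cc := ⟨879662989312, 0, 0, 0⟩
  ax := ⟨0, 0, 0, 0⟩
  ay := ⟨0, 0, 0, 0⟩
  xa := ⟨0, 0, 0, 0⟩
  C2 := ⟨0, 0, 0, 0⟩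
  wr := ⟨0, 673772994560, 0, 0⟩
  wi := ⟨5872294035456, 0, 0, 0⟩
  w1 := ⟨0, 45337674776576, 0, 0⟩
  h000 := ⟨0, 1126829760, 0, 0⟩
  h001 := ⟨0, 1879272768, 0, 0⟩
  h002 := ⟨5621966656, 0, 0, 0⟩
  h003 := ⟨0, 10798009408, 0, 0⟩
  h010 := ⟨0, 923558125696, 0, 0⟩
  h011 := ⟨0, 244549059264, 0, 0⟩
  h012 := ⟨0, 0, 0, 0⟩
  h020 := ⟨89785840318144, 0, 0, 0⟩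
  h021 := ⟨0, 0, 0, 0⟩
  h030 := ⟨0, 0, 0, 0⟩
  h100 := ⟨0, 150990784, 0, 0⟩
  h101 := ⟨0, 223232320, 0, 0⟩
  h102 := ⟨603643904, 0, 0, 0⟩
  h110 := ⟨0, 138439025088, 0, 0⟩
  h111 := ⟨0, 377768951552, 0, 0⟩
  h120 := ⟨0, 0, 0, 0⟩
  h200 := ⟨0, 201227072, 0, 0⟩
  h201 := ⟨0, 52334976, 0, 0⟩
  h202 := ⟨335569600, 0, 0, 0⟩
  h210 := ⟨30412805632, 0, 0, 0⟩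
  h211 := ⟨0, 0, 0, 0⟩
  h300 := ⟨44426752, 0, 0, 0⟩
  h301 := ⟨6125568, 0, 0, 0⟩
  h310 := ⟨0, 8518710464, 0, 0⟩
  h400 := ⟨0, 922240, 0, 0⟩
  h401 := ⟨0, 2418560, 0, 0⟩
  h410 := ⟨0, 0, 0, 0⟩
  h500 := ⟨0, 526656, 0, 0⟩
  h501 := ⟨0, 0, 0, 0⟩
  h600 := ⟨171648, 0, 0, 0⟩
  h700 := ⟨0, 0, 0, 0⟩
  h800 := ⟨0, 0, 0, 0⟩
  m000 := ⟨0, 0, 0, 0⟩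
  m001 := ⟨0, 0, 0, 0⟩
  m002 := ⟨0, 0, 0, 0⟩
  m010 := ⟨0, 0, 0, 0⟩
  m100 := ⟨0, 0, 0, 0⟩
  m101 := ⟨0, 0, 0, 0⟩
  m110 := ⟨0, 0, 0, 0⟩
  m200 := ⟨0, 0, 0, 0⟩
  m300 := ⟨0, 0, 0, 0⟩
  a00 := ⟨126240227328, 0, 0, 0⟩
  a01 := ⟨210274877440, 0, 0, 0⟩
  a02 := ⟨0, 201237790720, 0, 0⟩
  a03 := ⟨0, 1710144356352, 0, 0⟩
  a10 := ⟨8018410668032, 0, 0, 0⟩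
  a11 := ⟨27491355656192, 0, 0, 0⟩
  b00 := ⟨0, 0, 0, 0⟩
  b01 := ⟨0, 0, 0, 0⟩
  b02 := ⟨0, 0, 0, 0⟩
  b03 := ⟨0, 0, 0, 0⟩
  b10 := ⟨0, 0, 0, 0⟩
  b11 := ⟨0, 0, 0, 0⟩
  t00 := ⟨1797743247360, 0, 0, 0⟩
  t01 := ⟨1297084121088, 0, 0, 0⟩
  t02 := ⟨0, 6286906490880, 0, 0⟩
  t03 := ⟨10249829679104, 0, 0, 0⟩
  t10 := ⟨21840670228480, 0, 0, 0⟩
  t11 := ⟨11894331408384, 0, 0, 0⟩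
  s00 := ⟨0, 0, 0, 0⟩
  s01 := ⟨0, 0, 0, 0⟩
  s02 := ⟨0, 0, 0, 0⟩
  s03 := ⟨0, 0, 0, 0⟩
  s10 := ⟨0, 0, 0, 0⟩
  s11 := ⟨0, 0, 0, 0⟩
  g00 := ⟨34092929024, 0, 0, 0⟩
  g01 := ⟨0, 10677043456, 0, 0⟩
  g10 := ⟨6265420652160, 0, 0, 0⟩
  g11 := ⟨0, 0, 0, 0⟩
  f00 := ⟨8767094144, 0, 0, 0⟩
  f01 := ⟨133594236800, 0, 0, 0⟩
  f10 := ⟨22450407905792, 0, 0, 0⟩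
  f11 := ⟨0, 0, 0, 0⟩
  l000 := ⟨3447207033472, 0, 0, 0⟩
  l001 := ⟨10743677568, 0, 0, 0⟩
  l002 := ⟨0, 0, 0, 0⟩
  l010 := ⟨6132274084480, 0, 0, 0⟩
  l011 := ⟨0, 0, 0, 0⟩
  l020 := ⟨0, 0, 0, 0⟩
  l100 := ⟨1685121805184, 0, 0, 0⟩
  l101 := ⟨0, 40881634752, 0, 0⟩
  l102 := ⟨0, 0, 0, 0⟩
  l110 := ⟨0, 54638007983232, 0, 0⟩
  l111 := ⟨0, 0, 0, 0⟩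
  l120 := ⟨0, 0, 0, 0⟩
  l200 := ⟨370962000128, 0, 0, 0⟩
  l201 := ⟨71761289856, 0, 0, 0⟩
  l210 := ⟨129051272882560, 0, 0, 0⟩
  l300 := ⟨1564511767808, 0, 0, 0⟩
  l301 := ⟨0, 125432095040, 0, 0⟩
  l310 := ⟨0, 301823677461440, 0, 0⟩
  l400 := ⟨0, 4373901422464, 0, 0⟩
  l401 := ⟨105398492800, 0, 0, 0⟩
  l410 := ⟨310895870874752, 0, 0, 0⟩
  l500 := ⟨8499350605504, 0, 0, 0⟩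
  l501 := ⟨0, 68476417792, 0, 0⟩
  l510 := ⟨0, 200319359761856, 0, 0⟩
  l600 := ⟨0, 15588092362560, 0, 0⟩
  l700 := ⟨12571693389760, 0, 0, 0⟩
  l800 := ⟨0, 9502423295104, 0, 0⟩
  l900 := ⟨0, 10935895002944, 0, 0⟩
  l1000 := ⟨11734603210176, 0, 0, 0⟩
  l1100 := ⟨0, 14684754281024, 0, 0⟩
  q00 := ⟨1008366848, 0, 0, 0⟩
  q01 := ⟨0, 50499103232, 0, 0⟩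
  q02 := ⟨307715456512, 0, 0, 0⟩
  q03 := ⟨0, 0, 0, 0⟩
  q10 := ⟨0, 519234881216, 0, 0⟩
  q11 := ⟨9782621638848, 0, 0, 0⟩
  q12 := ⟨0, 0, 0, 0⟩
  q20 := ⟨0, 29220259320128, 0, 0⟩
  q21 := ⟨0, 0, 0, 0⟩
  q30 := ⟨0, 0, 0, 0⟩
  n000 := ⟨1094008438784, 0, 0, 0⟩
  n001 := ⟨1469317120, 0, 0, 0⟩
  n002 := ⟨8976990208, 0, 0, 0⟩
  n010 := ⟨1295089729536, 0, 0, 0⟩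
  n011 := ⟨2990978105344, 0, 0, 0⟩
  n020 := ⟨878455912267776, 0, 0, 0⟩
  n100 := ⟨37465161728, 0, 0, 0⟩
  n101 := ⟨2564030464, 0, 0, 0⟩
  n110 := ⟨1423205007360, 0, 0, 0⟩
  n200 := ⟨0, 93177905152, 0, 0⟩
  n201 := ⟨4279435264, 0, 0, 0⟩
  n210 := ⟨9645549682688, 0, 0, 0⟩
  n300 := ⟨208446029824, 0, 0, 0⟩
  n400 := ⟨0, 254322081792, 0, 0⟩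
  n500 := ⟨30450122752, 0, 0, 0⟩
  e00 := ⟨213100265472, 0, 0, 0⟩
  e01 := ⟨526480179200, 0, 0, 0⟩
  e02 := ⟨0, 1962100326400, 0, 0⟩
  e03 := ⟨4116562706432, 0, 0, 0⟩
  e10 := ⟨13274330038272, 0, 0, 0⟩
  e11 := ⟨87374307328000, 0, 0, 0⟩
  B1 := 0

end Pool.Agent.helper12.K122
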